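import Mathlib

/-!
# Rationals with small partial quotients
-/

set_option autoImplicit false

open Finset

namespace Pool.Agent.Q3.ULit

/-- Numerator and denominator of `[a_1; a_2, …, a_m]`. -/
def fw : List ℕ → ℕ × ℕ
  | [] => (1, 0)
  | a :: w => (a * (fw w).1 + (fw w).2, (fw w).1)

/-- The quality of a pair `(N, u)`. -/
def Qual (N u : ℕ) : Prop :=
  ∀ x y : ℤ, (N : ℤ) ∣ y - u * x → ¬ (N : ℤ) ∣ x → (N : ℤ) ≤ 65 * (|x| * |y|)

theorem fw_pos (w : List ℕ) (hw : ∀ a ∈ w, 1 ≤ a) : 0 < (fw w).1 ∧ (fw w).2 ≤ (fw w).1 := by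
  induction w with
  | nil => simp [fw]
  | cons a w ih =>
    obtain ⟨h1, h2⟩ := ih fun b hb => hw b (List.mem_cons_of_mem _ hb)
    have ha : 1 ≤ a := hw a List.mem_cons_self
    simp only [fw]
    constructor
    · nlinarith
    · nlinarith

theorem fw_cop (w : List ℕ) : Nat.Coprime (fw w).1 (fw w).2 := by
  induction w with
  | nil => simp [fw]
  | cons a w ih =>
    simp only [fw]
    rw [Nat.coprime_comm]
    rw [show a * (fw w).1 + (fw w).2 = (fw w).2 + a * (fw w).1 by ring]
    exact (Nat.coprime_add_mul_right_right _ _ _).2 ih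

theorem key (w : List ℕ) (hw : ∀ a ∈ w, 1 ≤ a ∧ a ≤ 63) : ∀ (q q' : ℕ), q ≤ q' → 0 < q' →
    ∀ σ : ℤ, σ = 1 ∨ σ = -1 → ∀ i j x y : ℤ, x = i * q + j * q' →
    y = σ * (i * (fw w).1 - j * (fw w).2) → (q' : ℤ) ≤ |x| → y ≠ 0 →
    ((q' * (fw w).1 + q * (fw w).2 : ℕ) : ℤ) ≤ 65 * (|x| * |y|) := by
  induction w with
  | nil =>
    intro q q' _ hq' σ hσ i j x y hx hy hxq hy0
    simp only [fw] at hy ⊢
    have h1 : 1 ≤ |y| := Int.one_le_abs hy0
    push_cast
    have h2 : (0 : ℤ) < q' := by exact_mod_cast hq'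
    nlinarith
  | cons a w ih =>
    intro q q' hqq hq' σ hσ i j x y hx hy hxq hy0
    obtain ⟨ha1, ha2⟩ := hw a List.mem_cons_self
    have hw' : ∀ b ∈ w, 1 ≤ b ∧ b ≤ 63 := fun b hb => hw b (List.mem_cons_of_mem _ hb)
    obtain ⟨hs, hts⟩ := fw_pos w fun b hb => (hw' b hb).1
    obtain ⟨s, hs'⟩ : ∃ s, s = (fw w).1 := ⟨_, rfl⟩
    obtain ⟨t, ht'⟩ : ∃ t, t = (fw w).2 := ⟨_, rfl⟩
    rw [← hs'] at hs hts
    rw [← ht'] at hts
    have e1 : (fw (a :: w)).1 = a * s + t := by simp [fw, hs', ht']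
    have e2 : (fw (a :: w)).2 = s := by simp [fw, hs']
    rw [e1, e2] at hy ⊢
    have hsZ : (0 : ℤ) < s := by exact_mod_cast hs
    have htZ : (t : ℤ) ≤ s := by exact_mod_cast hts
    have ht0 : (0 : ℤ) ≤ t := by positivity
    have hqZ : (q : ℤ) ≤ q' := by exact_mod_cast hqq
    have hq'Z : (0 : ℤ) < q' := by exact_mod_cast hq'
    have haZ : (a : ℤ) ≤ 63 := by exact_mod_cast ha2
    have haZ1 : (1 : ℤ) ≤ a := by exact_mod_cast ha1
    have hq0 : (0 : ℤ) ≤ q := by positivity
    by_cases hbig : ((q + a * q' : ℕ) : ℤ) ≤ |x|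
    · have h := ih hw' q' (q + a * q') (by nlinarith) (by nlinarith) (-σ)
        (by rcases hσ with h | h <;> rw [h] <;> simp) (j - a * i) i x y
        (by rw [hx]; push_cast; ring) (by rw [hy, ← hs', ← ht']; push_cast; ring) hbig hy0
      rw [← hs', ← ht'] at h
      refine le_trans (le_of_eq ?_) h
      push_cast; ring
    · push Not at hbig
      push_cast at hbig ⊢
      -- the basic bound
      have hN : (q' : ℤ) * (a * s + t) + q * s ≤ 65 * (q' * s) := by
        have h1 : (q' : ℤ) * t ≤ q' * s := mul_le_mul_of_nonneg_left htZ hq'Z.le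
        have h2 : (q : ℤ) * s ≤ q' * s := mul_le_mul_of_nonneg_right hqZ hsZ.le
        have h3 : (q' : ℤ) * (a * s) ≤ q' * (63 * s) := by
          apply mul_le_mul_of_nonneg_left _ hq'Z.le
          exact mul_le_mul_of_nonneg_right haZ hsZ.le
        linarith
      refine hN.trans ?_
      have hys : (s : ℤ) ≤ |y| := by
        obtain ⟨i', hi'⟩ : ∃ i', i' = j - a * i := ⟨_, rfl⟩
        have hx' : x = i' * q' + i * (q + a * q') := by rw [hx, hi']; ring
        have hy' : y = σ * (i * t - i' * s) := by rw [hy, hi']; push_cast; ring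
        have habs : |y| = |i * t - i' * s| := by
          rw [hy', abs_mul]; rcases hσ with h | h <;> rw [h] <;> simp
        rw [habs]
        have hQ : (0 : ℤ) < q + a * q' := by nlinarith
        rcases lt_trichotomy i 0 with hi | hi | hi
        · -- i < 0 : then i' > 0
          have h1 : 0 < i' := by
            by_contra hcon
            push Not at hcon
            have h2 : x ≤ -(q + a * q') := by rw [hx']; nlinarith
            have h3 : (q : ℤ) + a * q' ≤ |x| := by
              rw [abs_of_nonpos (by linarith)]; linarith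
            linarith
          rw [abs_of_nonpos (by nlinarith)]
          nlinarith
        · rw [hi] at hx' ⊢
          have h1 : i' ≠ 0 := by
            rintro h0
            rw [h0] at hx'
            simp at hx'
            rw [hx'] at hxq
            simp at hxq
            omega
          have h2 : 1 ≤ |i'| := Int.one_le_abs h1
          simp only [zero_mul, zero_sub, abs_neg, abs_mul]
          rw [abs_of_pos hsZ]
          nlinarith
        · have h1 : i' < 0 := by
            by_contra hcon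
            push Not at hcon
            have h2 : (q : ℤ) + a * q' ≤ x := by rw [hx']; nlinarith
            have h3 : (q : ℤ) + a * q' ≤ |x| := h2.trans (le_abs_self x)
            linarith
          rw [abs_of_nonneg (by nlinarith)]
          nlinarith
      have h4 : (q' : ℤ) * s ≤ |x| * |y| := mul_le_mul hxq hys hsZ.le (abs_nonneg _)
      linarith

theorem fw_qual (w : List ℕ) (hw : ∀ a ∈ w, 1 ≤ a ∧ a ≤ 63) : Qual (fw w).1 (fw w).2 := by
  intro x y hdvd hx
  obtain ⟨z, hz⟩ := hdvd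
  have hx0 : x ≠ 0 := by rintro rfl; exact hx (dvd_zero _)
  have hy0 : y ≠ 0 := by
    rintro rfl
    apply hx
    have h1 : ((fw w).1 : ℤ) ∣ (fw w).2 * x := ⟨-z, by linarith⟩
    have h2 : IsCoprime ((fw w).1 : ℤ) ((fw w).2 : ℤ) := Nat.isCoprime_iff_coprime.2 (fw_cop w)
    exact h2.dvd_of_dvd_mul_left h1
  have := key w hw 0 1 (by norm_num) one_pos (-1) (Or.inr rfl) (-z) x x y
    (by push_cast; ring) (by linarith) (by push_cast; exact Int.one_le_abs hx0) hy0
  simpa using this

/-! ### injectivity -/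

theorem fw2 (w : List ℕ) (hw : ∀ a ∈ w, 1 ≤ a) :
    1 ≤ (fw (w ++ [2])).2 ∧ (fw (w ++ [2])).2 < (fw (w ++ [2])).1 := by
  induction w with
  | nil => simp [fw]
  | cons a w ih =>
    obtain ⟨h1, h2⟩ := ih fun b hb => hw b (List.mem_cons_of_mem _ hb)
    have ha : 1 ≤ a := hw a List.mem_cons_self
    simp only [List.cons_append, fw]
    constructor
    · omega
    · nlinarith

theorem fw_inj : ∀ (w v : List ℕ), (∀ a ∈ w, 1 ≤ a) → (∀ a ∈ v, 1 ≤ a) →
    fw (w ++ [2]) = fw (v ++ [2]) → w = v := by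
  intro w
  induction w with
  | nil =>
    intro v _ hv h
    cases v with
    | nil => rfl
    | cons b v =>
      exfalso
      obtain ⟨h1, h2⟩ := fw2 v fun c hc => hv c (List.mem_cons_of_mem _ hc)
      simp only [List.nil_append, List.cons_append, fw, Prod.mk.injEq] at h
      omega
  | cons a w ih =>
    intro v hw hv h
    cases v with
    | nil =>
      exfalso
      obtain ⟨h1, h2⟩ := fw2 w fun c hc => hw c (List.mem_cons_of_mem _ hc)
      simp only [List.nil_append, List.cons_append, fw, Prod.mk.injEq] at h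
      omega
    | cons b v =>
      obtain ⟨h1, h2⟩ := fw2 w fun c hc => hw c (List.mem_cons_of_mem _ hc)
      obtain ⟨h3, h4⟩ := fw2 v fun c hc => hv c (List.mem_cons_of_mem _ hc)
      simp only [List.cons_append, fw, Prod.mk.injEq] at h
      obtain ⟨h5, h6⟩ := h
      rw [h6] at h5 h2
      have h7 : a = b := by
        have e1 : (a * (fw (v ++ [2])).1 + (fw (w ++ [2])).2) / (fw (v ++ [2])).1 = a := by
          rw [mul_comm, Nat.mul_add_div (by omega), Nat.div_eq_of_lt h2]; omega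
        have e2 : (b * (fw (v ++ [2])).1 + (fw (v ++ [2])).2) / (fw (v ++ [2])).1 = b := by
          rw [mul_comm, Nat.mul_add_div (by omega), Nat.div_eq_of_lt h4]; omega
        rw [← e1, h5, e2]
      subst h7
      have h8 : (fw (w ++ [2])).2 = (fw (v ++ [2])).2 := by omega
      have h9 : w = v := ih v (fun c hc => hw c (List.mem_cons_of_mem _ hc))
        (fun c hc => hv c (List.mem_cons_of_mem _ hc)) (Prod.ext h6 h8)
      rw [h9]

/-! ### counting -/

theorem words (k : ℕ) : ∃ S : Finset (List ℕ), (∀ w ∈ S, (∀ a ∈ w, 1 ≤ a ∧ a ≤ 63) ∧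
    (fw (w ++ [2])).1 ≤ 2 * 2 ^ k) ∧ (3 / 8 : ℝ) ^ 5 * (8 / 3) ^ k ≤ S.card := by
  classical
  suffices H : ∀ n, ∀ k < n, ∃ S : Finset (List ℕ), (∀ w ∈ S, (∀ a ∈ w, 1 ≤ a ∧ a ≤ 63) ∧
      (fw (w ++ [2])).1 ≤ 2 * 2 ^ k) ∧ (3 / 8 : ℝ) ^ 5 * (8 / 3) ^ k ≤ S.card from
    H (k + 1) k (by omega)
  intro n
  induction n with
  | zero => intro k hk; omega
  | succ n ih =>
    intro k hk
    rcases Nat.lt_or_ge k 6 with h6 | h6
    · refine ⟨{[]}, ?_, ?_⟩
      · intro w hw
        rw [Finset.mem_singleton] at hw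
        subst hw
        refine ⟨by simp, ?_⟩
        have : 1 ≤ 2 ^ k := Nat.one_le_two_pow
        simp only [List.nil_append, fw]
        omega
      · rw [Finset.card_singleton]
        calc (3 / 8 : ℝ) ^ 5 * (8 / 3) ^ k ≤ (3 / 8 : ℝ) ^ 5 * (8 / 3) ^ 5 := by
              apply mul_le_mul_of_nonneg_left _ (by positivity)
              exact pow_le_pow_right₀ (by norm_num) (by omega)
          _ = ((1 : ℕ) : ℝ) := by norm_num
    · have hch : ∀ j : ℕ, ∃ S : Finset (List ℕ), j < 6 → (∀ w ∈ S, (∀ a ∈ w, 1 ≤ a ∧ a ≤ 63) ∧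
          (fw (w ++ [2])).1 ≤ 2 * 2 ^ (k - (j + 1))) ∧
          (3 / 8 : ℝ) ^ 5 * (8 / 3) ^ (k - (j + 1)) ≤ S.card := by
        intro j
        by_cases hj : j < 6
        · obtain ⟨S, hS⟩ := ih (k - (j + 1)) (by omega)
          exact ⟨S, fun _ => hS⟩
        · exact ⟨∅, fun h => absurd h hj⟩
      choose S hS using hch
      refine ⟨(Finset.range 6).biUnion fun j => (Finset.Ico (2 ^ j) (2 ^ (j + 1))).biUnion fun a =>
        (S j).image (fun w => a :: w), ?_, ?_⟩
      · intro w hw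
        rw [Finset.mem_biUnion] at hw
        obtain ⟨j, hj, hw⟩ := hw
        rw [Finset.mem_range] at hj
        rw [Finset.mem_biUnion] at hw
        obtain ⟨a, ha, hw⟩ := hw
        rw [Finset.mem_image] at hw
        obtain ⟨v, hv, rfl⟩ := hw
        rw [Finset.mem_Ico] at ha
        obtain ⟨h1, h2⟩ := (hS j hj).1 v hv
        have ha1 : 1 ≤ a := le_trans Nat.one_le_two_pow ha.1
        have ha2 : a ≤ 63 := by
          have : 2 ^ (j + 1) ≤ 2 ^ 6 := Nat.pow_le_pow_right (by norm_num) (by omega)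
          omega
        refine ⟨?_, ?_⟩
        · intro b hb
          rcases List.mem_cons.1 hb with rfl | hb
          · exact ⟨ha1, ha2⟩
          · exact h1 b hb
        · obtain ⟨h3, h4⟩ := fw2 v fun c hc => (h1 c hc).1
          simp only [List.cons_append, fw]
          calc a * (fw (v ++ [2])).1 + (fw (v ++ [2])).2 ≤ (a + 1) * (fw (v ++ [2])).1 := by
                nlinarith
            _ ≤ 2 ^ (j + 1) * (2 * 2 ^ (k - (j + 1))) := Nat.mul_le_mul (by omega) h2
            _ = 2 * 2 ^ k := by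
                rw [mul_left_comm, ← pow_add]
                congr 2
                omega
      · have hcard : ((Finset.range 6).biUnion fun j => (Finset.Ico (2 ^ j) (2 ^ (j + 1))).biUnion
            fun a => (S j).image (fun w => a :: w)).card = ∑ j ∈ Finset.range 6, 2 ^ j * (S j).card := by
          rw [Finset.card_biUnion]
          · refine Finset.sum_congr rfl fun j _ => ?_
            rw [Finset.card_biUnion]
            · rw [Finset.sum_congr rfl fun a _ => Finset.card_image_of_injective (S j)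
                (fun v w h => (List.cons.inj h).2)]
              rw [Finset.sum_const, Nat.card_Ico, smul_eq_mul]
              congr 1
              rw [pow_succ]; omega
            · intro a _ b _ hab
              rw [Function.onFun, Finset.disjoint_left]
              intro w hw hw'
              rw [Finset.mem_image] at hw hw'
              obtain ⟨v, _, rfl⟩ := hw
              obtain ⟨v', _, h⟩ := hw'
              exact hab (List.cons.inj h).1.symm
          · intro j _ j' _ hjj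
            rw [Function.onFun, Finset.disjoint_left]
            intro w hw hw'
            rw [Finset.mem_biUnion] at hw hw'
            obtain ⟨a, ha, hw⟩ := hw
            obtain ⟨a', ha', hw'⟩ := hw'
            rw [Finset.mem_image] at hw hw'
            obtain ⟨v, _, rfl⟩ := hw
            obtain ⟨v', _, h⟩ := hw'
            have haa : a' = a := (List.cons.inj h).1
            subst haa
            rw [Finset.mem_Ico] at ha ha'
            rcases lt_or_gt_of_ne hjj with h1 | h1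
            · have : 2 ^ (j + 1) ≤ 2 ^ j' := Nat.pow_le_pow_right (by norm_num) h1
              omega
            · have : 2 ^ (j' + 1) ≤ 2 ^ j := Nat.pow_le_pow_right (by norm_num) h1
              omega
        rw [hcard]
        push_cast
        have hle : ∀ j ∈ Finset.range 6, (2 : ℝ) ^ j * ((3 / 8 : ℝ) ^ 5 * (8 / 3) ^ (k - (j + 1))) ≤
            2 ^ j * ((S j).card : ℝ) := by
          intro j hj
          apply mul_le_mul_of_nonneg_left _ (by positivity)
          exact (hS j (Finset.mem_range.1 hj)).2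
        refine le_trans ?_ (Finset.sum_le_sum hle)
        have hpow : ∀ j ∈ Finset.range 6, (2 : ℝ) ^ j * ((3 / 8 : ℝ) ^ 5 * (8 / 3) ^ (k - (j + 1))) =
            ((3 / 8 : ℝ) ^ 5 * (8 / 3) ^ k) * (2 ^ j * (3 / 8) ^ (j + 1)) := by
          intro j hj
          have hj' := Finset.mem_range.1 hj
          have e : (8 / 3 : ℝ) ^ k = (8 / 3) ^ (k - (j + 1)) * (8 / 3) ^ (j + 1) := by
            rw [← pow_add]; congr 1; omega
          have e2 : (8 / 3 : ℝ) ^ (j + 1) * (3 / 8) ^ (j + 1) = 1 := by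
            rw [← mul_pow]; norm_num
          rw [e]
          calc (2 : ℝ) ^ j * ((3 / 8 : ℝ) ^ 5 * (8 / 3) ^ (k - (j + 1)))
              = 2 ^ j * ((3 / 8 : ℝ) ^ 5 * (8 / 3) ^ (k - (j + 1))) * 1 := by ring
            _ = 2 ^ j * ((3 / 8 : ℝ) ^ 5 * (8 / 3) ^ (k - (j + 1))) *
                ((8 / 3 : ℝ) ^ (j + 1) * (3 / 8) ^ (j + 1)) := by rw [e2]
            _ = _ := by ring
        rw [Finset.sum_congr rfl hpow, ← Finset.mul_sum]
        have hpos : 0 < (3 / 8 : ℝ) ^ 5 * (8 / 3) ^ k := by positivity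
        have hsum : (1 : ℝ) ≤ ∑ j ∈ Finset.range 6, (2 : ℝ) ^ j * (3 / 8) ^ (j + 1) := by
          simp only [Finset.sum_range_succ, Finset.sum_range_zero]
          norm_num
        nlinarith

/-- Many good `u` for some large `N`. -/
theorem exists_many (N0 : ℕ) : ∃ (N : ℕ) (U : Finset ℕ), N0 ≤ N ∧ N ^ 2 ≤ U.card ^ 5 ∧
    ∀ u ∈ U, u < N ∧ Nat.Coprime N u ∧ Qual N u := by
  classical
  obtain ⟨c, hc⟩ : ∃ c : ℝ, c = (3 / 8) ^ 5 / 4 := ⟨_, rfl⟩
  have hc0 : 0 < c := by rw [hc]; positivity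
  -- choose k
  have h1 : ∀ᶠ k : ℕ in Filter.atTop, (N0 : ℝ) ≤ c * (4 / 3) ^ k := by
    have : Filter.Tendsto (fun k : ℕ => c * (4 / 3 : ℝ) ^ k) Filter.atTop Filter.atTop :=
      (tendsto_pow_atTop_atTop_of_one_lt (by norm_num)).const_mul_atTop hc0
    exact this.eventually_ge_atTop _
  have h2 : ∀ᶠ k : ℕ in Filter.atTop, 4 / c ^ 5 ≤ (1024 / 972 : ℝ) ^ k :=
    (tendsto_pow_atTop_atTop_of_one_lt (by norm_num)).eventually_ge_atTop _
  obtain ⟨k, hk1, hk2⟩ := (h1.and h2).exists
  obtain ⟨S, hS1, hS2⟩ := words k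
  have hmaps : ∀ w ∈ S, (fw (w ++ [2])).1 ∈ Finset.range (2 * 2 ^ k + 1) := fun w hw =>
    Finset.mem_range.2 (by have := (hS1 w hw).2; omega)
  -- a popular N
  obtain ⟨N, hN, hNc⟩ : ∃ N ∈ Finset.range (2 * 2 ^ k + 1), (S.card : ℝ) ≤
      (2 * 2 ^ k + 1) * ((S.filter fun w => (fw (w ++ [2])).1 = N).card : ℝ) := by
    by_contra hcon
    push Not at hcon
    have e := Finset.card_eq_sum_card_fiberwise hmaps
    have e2 : (S.card : ℝ) = ∑ N ∈ Finset.range (2 * 2 ^ k + 1),
        ((S.filter fun w => (fw (w ++ [2])).1 = N).card : ℝ) := by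
      rw [e]; push_cast; rfl
    have hne : (Finset.range (2 * 2 ^ k + 1)).Nonempty := ⟨0, by simp⟩
    have e3 : (2 * 2 ^ k + 1 : ℝ) * ∑ N ∈ Finset.range (2 * 2 ^ k + 1),
        ((S.filter fun w => (fw (w ++ [2])).1 = N).card : ℝ) <
        ∑ _N ∈ Finset.range (2 * 2 ^ k + 1), (S.card : ℝ) := by
      rw [Finset.mul_sum]
      exact Finset.sum_lt_sum_of_nonempty hne hcon
    rw [← e2, Finset.sum_const, Finset.card_range, nsmul_eq_mul] at e3
    push_cast at e3
    exact lt_irrefl _ e3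
  obtain ⟨T, hT⟩ : ∃ T, T = S.filter fun w => (fw (w ++ [2])).1 = N := ⟨_, rfl⟩
  rw [← hT] at hNc
  have hinj : Set.InjOn (fun w => (fw (w ++ [2])).2) (T : Set (List ℕ)) := by
    intro w hw v hv h
    have hw' : w ∈ T := hw
    have hv' : v ∈ T := hv
    rw [hT, Finset.mem_filter] at hw' hv'
    exact fw_inj w v (fun a ha => ((hS1 w hw'.1).1 a ha).1) (fun a ha => ((hS1 v hv'.1).1 a ha).1)
      (Prod.ext (hw'.2.trans hv'.2.symm) h)
  have hUc : (T.image fun w => (fw (w ++ [2])).2).card = T.card := Finset.card_image_of_injOn hinj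
  have hUlow : c * (4 / 3) ^ k ≤ (T.card : ℝ) := by
    have h3 : (3 / 8 : ℝ) ^ 5 * (8 / 3) ^ k ≤ (2 * 2 ^ k + 1) * (T.card : ℝ) := hS2.trans hNc
    have h4 : (2 * 2 ^ k + 1 : ℝ) ≤ 4 * 2 ^ k := by
      have : (1 : ℝ) ≤ 2 ^ k := one_le_pow₀ (by norm_num)
      linarith
    have h5 : (3 / 8 : ℝ) ^ 5 * (8 / 3) ^ k ≤ 4 * 2 ^ k * (T.card : ℝ) :=
      h3.trans (mul_le_mul_of_nonneg_right h4 (Nat.cast_nonneg _))
    have e : (8 / 3 : ℝ) ^ k = 2 ^ k * (4 / 3) ^ k := by rw [← mul_pow]; norm_num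
    rw [e] at h5
    have h6 : (0 : ℝ) < 4 * 2 ^ k := by positivity
    have h7 : (4 * 2 ^ k : ℝ) * (c * (4 / 3) ^ k) ≤ 4 * 2 ^ k * (T.card : ℝ) := by
      rw [hc]; refine le_trans (le_of_eq ?_) h5; ring
    exact le_of_mul_le_mul_left h7 h6
  have hUall : ∀ u ∈ T.image (fun w => (fw (w ++ [2])).2), u < N ∧ Nat.Coprime N u ∧ Qual N u := by
    intro u hu
    rw [Finset.mem_image] at hu
    obtain ⟨w, hw, rfl⟩ := hu
    rw [hT, Finset.mem_filter] at hw
    obtain ⟨hwS, hwN⟩ := hw
    obtain ⟨hd, _⟩ := hS1 w hwS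
    have hd2 : ∀ a ∈ w ++ [2], 1 ≤ a ∧ a ≤ 63 := by
      intro a ha
      rcases List.mem_append.1 ha with h | h
      · exact hd a h
      · rw [List.mem_singleton] at h; subst h; norm_num
    rw [← hwN]
    exact ⟨(fw2 w fun a ha => (hd a ha).1).2, fw_cop _, fw_qual _ hd2⟩
  have hNge : T.card ≤ N := by
    rw [← hUc]
    have : T.image (fun w => (fw (w ++ [2])).2) ⊆ Finset.range N := fun u hu =>
      Finset.mem_range.2 (hUall u hu).1
    simpa using Finset.card_le_card this
  refine ⟨N, T.image fun w => (fw (w ++ [2])).2, ?_, ?_, hUall⟩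
  · have : (N0 : ℝ) ≤ N := (hk1.trans hUlow).trans (by exact_mod_cast hNge)
    exact_mod_cast this
  · rw [hUc]
    have hN2 : (N : ℝ) ≤ 2 * 2 ^ k := by
      have := Finset.mem_range.1 hN
      have : N ≤ 2 * 2 ^ k := by omega
      exact_mod_cast this
    have h8 : (N : ℝ) ^ 2 ≤ (T.card : ℝ) ^ 5 := by
      calc (N : ℝ) ^ 2 ≤ (2 * 2 ^ k) ^ 2 := by gcongr
        _ = 4 * 4 ^ k := by rw [mul_pow, ← pow_mul, mul_comm k 2, pow_mul]; norm_num
        _ ≤ (c * (4 / 3) ^ k) ^ 5 := by
          rw [div_le_iff₀ (by positivity)] at hk2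
          have e : (c * (4 / 3 : ℝ) ^ k) ^ 5 = ((1024 / 972 : ℝ) ^ k * c ^ 5) * 4 ^ k := by
            rw [mul_pow, ← pow_mul, mul_comm k 5, pow_mul]
            have : (4 / 3 : ℝ) ^ 5 = (1024 / 972) * 4 := by norm_num
            rw [this, mul_pow]; ring
          rw [e]
          exact mul_le_mul_of_nonneg_right hk2 (by positivity)
        _ ≤ (T.card : ℝ) ^ 5 := by gcongr
    exact_mod_cast h8

end Pool.Agent.Q3.ULit
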