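import Mathlib
import Pool.Agent.Q3.ULit.Words
import Pool.Agent.Q3.VdC.Kron

/-!
# Coprime points of a rational line in a box
-/

set_option autoImplicit false

open Finset

namespace Pool.Agent.Q3.ULit

open Pool.Agent.Q3.VdC

/-- Discrepancy of a Kronecker sequence up to a denominator. -/
theorem kron' (β c : ℝ) (hc : 0 < c) (hc1 : c < 1) (K0 : ℕ)
    (hβ : ∀ q : ℕ, 0 < q → q ≤ K0 → ∀ z : ℤ, c ≤ q * |q * β - z|)
    (a : ℝ) (ha0 : 0 ≤ a) (ha1 : a ≤ 1) : ∀ K : ℕ, K ≤ K0 → ∀ s : ℝ,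
    |(cnt s β a K : ℝ) - a * K| ≤ 4 * (if K = 0 then 0 else 1 + Real.log K / c) := by
  intro K
  induction K using Nat.strong_induction_on with
  | _ K ih =>
    intro hKK s
    rcases Nat.eq_zero_or_pos K with h0 | hK
    · subst h0
      simp [cnt]
    · obtain ⟨q, hq1, hq2⟩ := Real.exists_rat_abs_sub_le_and_den_le β hK
      have hden : 0 < q.den := q.den_pos
      have hdenr : (0 : ℝ) < q.den := by exact_mod_cast hden
      have hKr : (0 : ℝ) < K := by exact_mod_cast hK
      have hqcast : (q : ℝ) = (q.num : ℝ) / (q.den : ℝ) := by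
        exact_mod_cast (Rat.num_div_den q).symm
      rw [hqcast] at hq1
      have hdK : (q.den : ℝ) ≤ K := by exact_mod_cast hq2
      have hclose : |β - q.num / q.den| < 1 / (q.den : ℝ) ^ 2 := by
        refine hq1.trans_lt ?_
        rw [div_lt_div_iff₀ (by positivity) (by positivity)]
        nlinarith
      have hcop : IsCoprime q.num (q.den : ℤ) := by
        rw [Int.isCoprime_iff_gcd_eq_one]
        exact q.reduced
      have hb := block β s a ha0 ha1 q.den hden q.num hcop hclose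
      -- size of the denominator
      have hsize : c * K ≤ q.den := by
        have h1 := hβ q.den hden (hq2.trans hKK) q.num
        have h2 : (q.den : ℝ) * β - q.num = q.den * (β - q.num / q.den) := by
          field_simp
        rw [h2, abs_mul, abs_of_pos hdenr] at h1
        have h3 : (q.den : ℝ) * |β - q.num / q.den| ≤ 1 / (K + 1) := by
          calc (q.den : ℝ) * |β - q.num / q.den| ≤ q.den * (1 / ((K + 1) * q.den)) := by gcongr
            _ = 1 / (K + 1) := by field_simp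
        have h4 : c ≤ q.den * (1 / (K + 1)) := h1.trans (by gcongr)
        rw [mul_one_div, le_div_iff₀ (by positivity)] at h4
        nlinarith
      obtain ⟨L, hL⟩ := Nat.exists_eq_add_of_le hq2
      have hLK : L < K := by omega
      have h1 := ih L hLK (by omega) (s + q.den * β)
      have hsplit : (cnt s β a K : ℝ) - a * K = ((cnt s β a q.den : ℝ) - a * q.den) +
          ((cnt (s + q.den * β) β a L : ℝ) - a * L) := by
        rw [hL, cnt_add]; push_cast; ring
      rw [hsplit]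
      refine (abs_add_le _ _).trans ?_
      rw [if_neg hK.ne']
      have hKL : (K : ℝ) = q.den + L := by exact_mod_cast hL
      rcases Nat.eq_zero_or_pos L with hL0 | hLpos
      · rw [if_pos hL0] at h1
        have : 0 ≤ Real.log K / c := div_nonneg (Real.log_nonneg (by exact_mod_cast hK)) hc.le
        linarith
      · rw [if_neg hLpos.ne'] at h1
        have hLr : (0 : ℝ) < L := by exact_mod_cast hLpos
        have h2 : Real.log L ≤ Real.log K - c := by
          have h3 : (L : ℝ) / K ≤ 1 - c := by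
            rw [div_le_iff₀ hKr]; linarith
          have h4 : Real.log ((L : ℝ) / K) ≤ (L : ℝ) / K - 1 := Real.log_le_sub_one_of_pos (by positivity)
          rw [Real.log_div hLr.ne' hKr.ne'] at h4
          linarith
        have h5 : 1 + Real.log L / c ≤ Real.log K / c := by
          have : Real.log L / c ≤ (Real.log K - c) / c := by gcongr
          rw [sub_div, div_self hc.ne'] at this
          linarith
        linarith

/-- The point of `p` lies in a box. -/
def InBox (N u : ℕ) (a b h : ℝ) (p : ℕ) : Prop :=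
  a ≤ (p : ℝ) / N ∧ (p : ℝ) / N < a + h ∧ b ≤ Int.fract ((p : ℝ) * u / N) ∧
    Int.fract ((p : ℝ) * u / N) < b + h

open Classical in
/-- The multiples of `d` in a box. -/
noncomputable def A (N u : ℕ) (a b h : ℝ) (d : ℕ) : ℕ :=
  ((range N).filter (fun p => d ∣ p ∧ InBox N u a b h p)).card

theorem A_eq (N' d u : ℕ) (hN' : 0 < N') (hd : 0 < d) (a b h : ℝ) (ha : 0 ≤ a) (hh : 0 ≤ h)
    (hah : a + h ≤ 1) :
    (A (d * N') u a b h d : ℝ) =
      (cnt ((⌈a * N'⌉₊ : ℝ) * ((u : ℝ) / N')) ((u : ℝ) / N') (b + h) (⌈(a + h) * N'⌉₊ - ⌈a * N'⌉₊) : ℝ)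
      - cnt ((⌈a * N'⌉₊ : ℝ) * ((u : ℝ) / N')) ((u : ℝ) / N') b (⌈(a + h) * N'⌉₊ - ⌈a * N'⌉₊) := by
  classical
  obtain ⟨β, hβ⟩ : ∃ β : ℝ, β = (u : ℝ) / N' := ⟨_, rfl⟩
  obtain ⟨P0, hP0⟩ : ∃ P0, P0 = ⌈a * N'⌉₊ := ⟨_, rfl⟩
  obtain ⟨P1, hP1⟩ : ∃ P1, P1 = ⌈(a + h) * N'⌉₊ := ⟨_, rfl⟩
  rw [← hβ, ← hP0, ← hP1]
  have hN'r : (0 : ℝ) < N' := by exact_mod_cast hN'
  have hdr : (0 : ℝ) < d := by exact_mod_cast hd
  have h01 : P0 ≤ P1 := by
    rw [hP0, hP1]; apply Nat.ceil_le_ceil; nlinarith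
  have hA : A (d * N') u a b h d = ((range (P1 - P0)).filter (fun k : ℕ =>
      b ≤ Int.fract (P0 * β + k * β) ∧ Int.fract (P0 * β + k * β) < b + h)).card := by
    unfold A
    symm
    apply Finset.card_bij (fun k _ => d * (P0 + k))
    · intro k hk
      rw [Finset.mem_filter, Finset.mem_range] at hk ⊢
      obtain ⟨hk, h1, h2⟩ := hk
      have e : (((d * (P0 + k) : ℕ) : ℝ)) / ((d * N' : ℕ) : ℝ) = ((P0 + k : ℕ) : ℝ) / N' := by
        push_cast; field_simp
      have e2 : (((d * (P0 + k) : ℕ) : ℝ)) * u / ((d * N' : ℕ) : ℝ) = P0 * β + k * β := by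
        rw [hβ]; push_cast; field_simp
      have hlt : P0 + k < P1 := by omega
      have hge : P0 ≤ P0 + k := by omega
      have hlt' : ((P0 + k : ℕ) : ℝ) < (a + h) * N' := by
        rw [hP1] at hlt
        exact Nat.lt_ceil.1 hlt
      have hge' : a * N' ≤ ((P0 + k : ℕ) : ℝ) := by
        nth_rewrite 1 [hP0] at hge
        exact Nat.ceil_le.1 hge
      refine ⟨?_, dvd_mul_right _ _, ?_, ?_, ?_, ?_⟩
      · apply Nat.mul_lt_mul_of_pos_left _ hd
        have : ((P0 + k : ℕ) : ℝ) < N' := by nlinarith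
        exact_mod_cast this
      · rw [e, le_div_iff₀ hN'r]; exact hge'
      · rw [e, div_lt_iff₀ hN'r]; exact hlt'
      · rw [e2]; exact h1
      · rw [e2]; exact h2
    · intro k _ l _ hkl
      have := Nat.eq_of_mul_eq_mul_left hd hkl
      omega
    · intro p hp
      rw [Finset.mem_filter, Finset.mem_range] at hp
      obtain ⟨hp, ⟨q, rfl⟩, h1, h2, h3, h4⟩ := hp
      have e : (((d * q : ℕ) : ℝ)) / ((d * N' : ℕ) : ℝ) = (q : ℝ) / N' := by
        push_cast; field_simp
      have e2 : (((d * q : ℕ) : ℝ)) * u / ((d * N' : ℕ) : ℝ) = q * β := by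
        rw [hβ]; push_cast; field_simp
      rw [e, le_div_iff₀ hN'r] at h1
      rw [e, div_lt_iff₀ hN'r] at h2
      rw [e2] at h3 h4
      have h5 : P0 ≤ q := by rw [hP0]; exact Nat.ceil_le.2 h1
      have h6 : q < P1 := by rw [hP1]; exact Nat.lt_ceil.2 h2
      have e3 : (q : ℝ) * β = P0 * β + ((q - P0 : ℕ) : ℝ) * β := by
        rw [Nat.cast_sub h5]; ring
      refine ⟨q - P0, ?_, ?_⟩
      · rw [Finset.mem_filter, Finset.mem_range, ← e3]
        exact ⟨by omega, h3, h4⟩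
      · congr 1; omega
  rw [hA]
  have hsum : cnt (P0 * β) β (b + h) (P1 - P0) = cnt (P0 * β) β b (P1 - P0) +
      ((range (P1 - P0)).filter (fun k : ℕ =>
      b ≤ Int.fract (P0 * β + k * β) ∧ Int.fract (P0 * β + k * β) < b + h)).card := by
    unfold cnt
    rw [← Finset.card_union_of_disjoint]
    · congr 1
      ext k
      simp only [Finset.mem_filter, Finset.mem_union, Finset.mem_range]
      constructor
      · rintro ⟨h1, h2⟩
        rcases lt_or_ge (Int.fract (P0 * β + k * β)) b with h3 | h3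
        · left; exact ⟨h1, h3⟩
        · right; exact ⟨h1, h3, h2⟩
      · rintro (⟨h1, h2⟩ | ⟨h1, h2, h3⟩)
        · exact ⟨h1, by linarith⟩
        · exact ⟨h1, h3⟩
    · rw [Finset.disjoint_filter]
      intro k _ h1 h2
      linarith [h2.1]
  rw [hsum]
  push_cast; ring

theorem A_bound (N u : ℕ) (hN : 16 ≤ N) (hq : Qual N u) (d : ℕ) (hd : d ∣ N) (a b h : ℝ)
    (ha : 0 ≤ a) (hh : 0 ≤ h) (hh2 : h ≤ 1 / 2) (hah : a + h ≤ 1) (hb : 0 ≤ b) (hbh : b + h ≤ 1) :
    |(A N u a b h d : ℝ) - h ^ 2 * ((N / d : ℕ) : ℝ)| ≤ 530 * (√N * Real.log N) := by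
  obtain ⟨N', rfl⟩ := hd
  have hd0 : 0 < d := Nat.pos_of_ne_zero (by rintro rfl; simp at hN)
  have hN'0 : 0 < N' := Nat.pos_of_ne_zero (by rintro rfl; simp at hN)
  rw [Nat.mul_div_cancel_left _ hd0, A_eq N' d u hN'0 hd0 a b h ha hh hah]
  have hN'r : (0 : ℝ) < N' := by exact_mod_cast hN'0
  have hdr : (0 : ℝ) < d := by exact_mod_cast hd0
  obtain ⟨β, hβ⟩ : ∃ β : ℝ, β = (u : ℝ) / N' := ⟨_, rfl⟩
  obtain ⟨P0, hP0⟩ : ∃ P0, P0 = ⌈a * N'⌉₊ := ⟨_, rfl⟩
  obtain ⟨P1, hP1⟩ : ∃ P1, P1 = ⌈(a + h) * N'⌉₊ := ⟨_, rfl⟩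
  rw [← hβ, ← hP0, ← hP1]
  have h01 : P0 ≤ P1 := by
    rw [hP0, hP1]; apply Nat.ceil_le_ceil; nlinarith
  have hP0a : a * N' ≤ P0 := by rw [hP0]; exact Nat.le_ceil _
  have hP0b : (P0 : ℝ) < a * N' + 1 := by rw [hP0]; exact Nat.ceil_lt_add_one (by positivity)
  have hP1a : (a + h) * N' ≤ P1 := by rw [hP1]; exact Nat.le_ceil _
  have hP1b : (P1 : ℝ) < (a + h) * N' + 1 := by rw [hP1]; exact Nat.ceil_lt_add_one (by positivity)
  obtain ⟨K, hK⟩ : ∃ K, K = P1 - P0 := ⟨_, rfl⟩
  have hKr : (K : ℝ) = P1 - P0 := by rw [hK, Nat.cast_sub h01]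
  rw [← hK]
  have hK1 : (K : ℝ) < h * N' + 1 := by rw [hKr]; linarith
  have hK2 : h * N' - 1 < (K : ℝ) := by rw [hKr]; linarith
  have hNr : (16 : ℝ) ≤ ((d * N' : ℕ) : ℝ) := by exact_mod_cast hN
  have hlog : 1 ≤ Real.log ((d * N' : ℕ) : ℝ) := by
    rw [Real.le_log_iff_exp_le (by linarith)]
    have := Real.exp_one_lt_d9
    linarith
  have hsq : 4 ≤ √((d * N' : ℕ) : ℝ) := by
    rw [Real.le_sqrt' (by norm_num)]
    linarith
  have hX : √((d * N' : ℕ) : ℝ) ≤ √((d * N' : ℕ) : ℝ) * Real.log ((d * N' : ℕ) : ℝ) := by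
    nlinarith
  have hcnt : ∀ t, (cnt (P0 * β) β t K : ℝ) ≤ K := by
    intro t
    have : cnt (P0 * β) β t K ≤ K := by
      unfold cnt
      exact (Finset.card_filter_le _ _).trans (by rw [Finset.card_range])
    exact_mod_cast this
  have hhN : h ^ 2 * (N' : ℝ) ≤ N' := by
    have : h ^ 2 ≤ 1 := by nlinarith
    nlinarith
  by_cases hdd : d * d ≤ d * N'
  · -- small divisors
    have hdN : d ≤ N' := Nat.le_of_mul_le_mul_left hdd hd0
    have hN'4 : 4 ≤ N' := by nlinarith
    have hd2 : (d : ℝ) ≤ √((d * N' : ℕ) : ℝ) := by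
      rw [Real.le_sqrt' hdr]
      have : ((d * d : ℕ) : ℝ) ≤ ((d * N' : ℕ) : ℝ) := by exact_mod_cast hdd
      push_cast at this ⊢
      nlinarith
    obtain ⟨c, hc⟩ : ∃ c : ℝ, c = 1 / (65 * d) := ⟨_, rfl⟩
    have hc0 : 0 < c := by rw [hc]; positivity
    have hd1 : (1 : ℝ) ≤ d := by exact_mod_cast hd0
    have hc1 : c < 1 := by
      rw [hc, div_lt_one (by positivity)]; linarith
    have hKK : K ≤ N' - 1 := by
      have h1 : (K : ℝ) < N' / 2 + 1 := by nlinarith
      have h2 : (4 : ℝ) ≤ N' := by exact_mod_cast hN'4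
      have h3 : (K : ℝ) < N' := by linarith
      have : K < N' := by exact_mod_cast h3
      omega
    have hq' : ∀ q : ℕ, 0 < q → q ≤ N' - 1 → ∀ z : ℤ, c ≤ q * |q * β - z| := by
      intro q hq0 hqN z
      have hx : ¬ ((d * N' : ℕ) : ℤ) ∣ ((d * q : ℕ) : ℤ) := by
        rw [Int.natCast_dvd_natCast]
        intro hdvd
        have := Nat.le_of_dvd (by positivity) hdvd
        have := Nat.le_of_mul_le_mul_left this hd0
        omega
      have h1 := hq ((d * q : ℕ) : ℤ) (u * ((d * q : ℕ) : ℤ) - ((d * N' : ℕ) : ℤ) * z)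
        ⟨-z, by ring⟩ hx
      have h2 : (((d * N' : ℕ) : ℤ) : ℝ) ≤ ((65 * (|((d * q : ℕ) : ℤ)| *
          |u * ((d * q : ℕ) : ℤ) - ((d * N' : ℕ) : ℤ) * z|) : ℤ) : ℝ) := by exact_mod_cast h1
      push_cast at h2
      have hqr : (0 : ℝ) < q := by exact_mod_cast hq0
      have e : (q : ℝ) * β - z = (u * (d * q) - d * N' * z) / (d * N') := by
        rw [hβ]; field_simp
      rw [e, abs_div, abs_of_pos (show (0 : ℝ) < d * N' by positivity), hc]
      rw [abs_of_pos (show (0 : ℝ) < d * q by positivity)] at h2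
      rw [div_le_iff₀ (by positivity)]
      have e3 : (q : ℝ) * (|(u : ℝ) * (d * q) - d * N' * z| / (d * N')) * (65 * d) =
          (65 * (d * q * |(u : ℝ) * (d * q) - d * N' * z|)) / (d * N') := by ring
      rw [e3, le_div_iff₀ (by positivity)]
      linarith
    have hk := fun t ht0 ht1 => kron' β c hc0 hc1 (N' - 1) hq' t ht0 ht1 K hKK (P0 * β)
    have hbound : (4 : ℝ) * (if K = 0 then 0 else 1 + Real.log K / c) ≤
        4 * (1 + 65 * (√((d * N' : ℕ) : ℝ) * Real.log ((d * N' : ℕ) : ℝ))) := by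
      apply mul_le_mul_of_nonneg_left _ (by norm_num)
      split_ifs with h0
      · positivity
      · have hKpos : (0 : ℝ) < K := by exact_mod_cast Nat.pos_of_ne_zero h0
        have hlogK : Real.log K ≤ Real.log ((d * N' : ℕ) : ℝ) := by
          apply Real.log_le_log hKpos
          have : K ≤ d * N' := (show K ≤ N' by omega).trans (Nat.le_mul_of_pos_left _ hd0)
          exact_mod_cast this
        have hlogK0 : 0 ≤ Real.log K := Real.log_natCast_nonneg K
        have e : Real.log K / c = 65 * (d * Real.log K) := by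
          rw [hc]; field_simp
        rw [e]
        have : (d : ℝ) * Real.log K ≤ √((d * N' : ℕ) : ℝ) * Real.log ((d * N' : ℕ) : ℝ) := by
          gcongr
        linarith
    have h1 := (hk (b + h) (by linarith) hbh).trans hbound
    have h2 := (hk b hb (by linarith)).trans hbound
    rw [abs_le] at h1 h2
    have h3 : |h * K - h ^ 2 * N'| ≤ 1 := by
      have e : h * K - h ^ 2 * N' = h * (K - h * N') := by ring
      rw [e, abs_mul, abs_of_nonneg hh]
      have : |(K : ℝ) - h * N'| ≤ 1 := by rw [abs_le]; constructor <;> linarith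
      calc h * |(K : ℝ) - h * N'| ≤ 1 * 1 := mul_le_mul (by linarith) this (abs_nonneg _) zero_le_one
        _ = 1 := one_mul 1
    rw [abs_le] at h3 ⊢
    constructor <;> nlinarith
  · push Not at hdd
    have hN'2 : (N' : ℝ) ≤ √((d * N' : ℕ) : ℝ) := by
      rw [Real.le_sqrt' hN'r]
      have hlt : N' ≤ d := (Nat.lt_of_mul_lt_mul_left hdd).le
      have : N' * N' ≤ d * N' := Nat.mul_le_mul_right _ hlt
      have : ((N' * N' : ℕ) : ℝ) ≤ ((d * N' : ℕ) : ℝ) := by exact_mod_cast this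
      push_cast at this ⊢
      nlinarith
    have h1 := hcnt (b + h)
    have h2 := hcnt b
    have h3 : (0 : ℝ) ≤ (cnt (P0 * β) β (b + h) K : ℝ) := Nat.cast_nonneg _
    have h4 : (0 : ℝ) ≤ (cnt (P0 * β) β b K : ℝ) := Nat.cast_nonneg _
    have h5 : (K : ℝ) ≤ N' + 1 := by nlinarith
    have h6 : 0 ≤ h ^ 2 * (N' : ℝ) := by positivity
    rw [abs_le]
    constructor <;> linarith

open Classical in
/-- The coprime points in a box. -/
noncomputable def Cop (N u : ℕ) (a b h : ℝ) : Finset ℕ :=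
  (range N).filter (fun p => Nat.Coprime p N ∧ InBox N u a b h p)

theorem cop_card (N u : ℕ) (hN : 0 < N) (a b h : ℝ) :
    ((Cop N u a b h).card : ℤ) = ∑ d ∈ N.divisors, ArithmeticFunction.moebius d * (A N u a b h d : ℤ) := by
  classical
  have h1 : ∀ p : ℕ, (if Nat.Coprime p N then (1 : ℤ) else 0) =
      ∑ d ∈ N.divisors, (if d ∣ p then ArithmeticFunction.moebius d else 0) := by
    intro p
    rw [← Finset.sum_filter]
    have e : N.divisors.filter (fun d => d ∣ p) = (Nat.gcd p N).divisors := by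
      ext d
      rw [Finset.mem_filter, Nat.mem_divisors, Nat.mem_divisors]
      constructor
      · rintro ⟨⟨h1, h2⟩, h3⟩
        exact ⟨Nat.dvd_gcd h3 h1, Nat.gcd_ne_zero_right hN.ne'⟩
      · rintro ⟨h1, h2⟩
        exact ⟨⟨h1.trans (Nat.gcd_dvd_right _ _), hN.ne'⟩, h1.trans (Nat.gcd_dvd_left _ _)⟩
    rw [e, ← ArithmeticFunction.coe_mul_zeta_apply, ArithmeticFunction.moebius_mul_coe_zeta,
      ArithmeticFunction.one_apply]
  unfold Cop
  rw [Finset.card_filter]
  push_cast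
  have h2 : ∀ p ∈ range N, (if Nat.Coprime p N ∧ InBox N u a b h p then (1 : ℤ) else 0) =
      ∑ d ∈ N.divisors, ArithmeticFunction.moebius d *
        (if d ∣ p ∧ InBox N u a b h p then (1 : ℤ) else 0) := by
    intro p _
    by_cases hb : InBox N u a b h p
    · simp only [hb, and_true, mul_ite, mul_one, mul_zero]
      exact h1 p
    · simp [hb]
  rw [Finset.sum_congr rfl h2, Finset.sum_comm]
  refine Finset.sum_congr rfl fun d _ => ?_
  rw [← Finset.mul_sum]
  congr 1
  unfold A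
  rw [Finset.card_filter]
  push_cast
  rfl

theorem totient_sum (N : ℕ) (hN : 0 < N) :
    ∑ d ∈ N.divisors, ArithmeticFunction.moebius d * ((N / d : ℕ) : ℤ) = (Nat.totient N : ℤ) := by
  have h := (ArithmeticFunction.sum_eq_iff_sum_mul_moebius_eq (R := ℤ)
    (f := fun n => (Nat.totient n : ℤ)) (g := fun n => (n : ℤ))).1 (by
      intro n hn
      have := Nat.sum_totient n
      exact_mod_cast this) N hN
  simp only [Int.cast_id] at h
  rw [Nat.sum_divisorsAntidiagonal (fun i j => ((ArithmeticFunction.moebius i : ℤ)) * ((j : ℕ) : ℤ))] at h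
  exact h

theorem cop_bound (N u : ℕ) (hN : 16 ≤ N) (hq : Qual N u) (a b h : ℝ)
    (ha : 0 ≤ a) (hh : 0 ≤ h) (hh2 : h ≤ 1 / 2) (hah : a + h ≤ 1) (hb : 0 ≤ b) (hbh : b + h ≤ 1) :
    |((Cop N u a b h).card : ℝ) - h ^ 2 * (Nat.totient N : ℝ)| ≤
      N.divisors.card * (530 * (√N * Real.log N)) := by
  have h1 : ((Cop N u a b h).card : ℝ) =
      ∑ d ∈ N.divisors, (ArithmeticFunction.moebius d : ℝ) * (A N u a b h d : ℝ) := by
    have := cop_card N u (by omega) a b h
    exact_mod_cast this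
  have h2 : (Nat.totient N : ℝ) =
      ∑ d ∈ N.divisors, (ArithmeticFunction.moebius d : ℝ) * ((N / d : ℕ) : ℝ) := by
    obtain ⟨g, hg⟩ : ∃ g : ℕ → ℕ, ∀ d, g d = N / d := ⟨fun d => N / d, fun _ => rfl⟩
    have h3 := totient_sum N (by omega)
    simp only [← hg] at h3 ⊢
    exact_mod_cast h3.symm
  rw [h1, h2, Finset.mul_sum, ← Finset.sum_sub_distrib]
  refine (Finset.abs_sum_le_sum_abs _ _).trans ?_
  rw [← nsmul_eq_mul]
  apply Finset.sum_le_card_nsmul
  intro d hd
  have e : (ArithmeticFunction.moebius d : ℝ) * (A N u a b h d : ℝ) -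
      h ^ 2 * ((ArithmeticFunction.moebius d : ℝ) * ((N / d : ℕ) : ℝ)) =
      (ArithmeticFunction.moebius d : ℝ) * ((A N u a b h d : ℝ) - h ^ 2 * ((N / d : ℕ) : ℝ)) := by ring
  rw [e, abs_mul]
  have hmu : |(ArithmeticFunction.moebius d : ℝ)| ≤ 1 := by
    have := ArithmeticFunction.abs_moebius_le_one (n := d)
    exact_mod_cast this
  have hA := A_bound N u hN hq d (Nat.dvd_of_mem_divisors hd) a b h ha hh hh2 hah hb hbh
  calc _ ≤ 1 * (530 * (√N * Real.log N)) := mul_le_mul hmu hA (abs_nonneg _) zero_le_one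
    _ = _ := one_mul _

theorem le_totient_mul (N : ℕ) (hN : 0 < N) : N ≤ Nat.totient N * N.divisors.card := by
  have h := Nat.sum_totient N
  calc N = ∑ d ∈ N.divisors, Nat.totient d := h.symm
    _ ≤ N.divisors.card • Nat.totient N := by
      apply Finset.sum_le_card_nsmul
      intro d hd
      exact Nat.le_of_dvd (Nat.totient_pos.2 hN) (Nat.totient_dvd_of_dvd (Nat.dvd_of_mem_divisors hd))
    _ = _ := by rw [smul_eq_mul, mul_comm]

end Pool.Agent.Q3.ULit
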