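import Mathlib
import Pool.Agent.Q3.ULit.Sieve
import Pool.Agent.Helper919.DivBound

/-!
# The choice of a denominator
-/

set_option autoImplicit false

open Finset

namespace Pool.Agent.Q3.ULit

/-- The error term of the sieve. -/
noncomputable def Err (N : ℕ) : ℝ := N.divisors.card * (530 * (√N * Real.log N))

theorem choose_N (s : ℝ) (hs : 0 < s) (N0 : ℕ) : ∃ (N : ℕ) (U : Finset ℕ), N0 ≤ N ∧ 16 ≤ N ∧
    (∀ u ∈ U, u < N ∧ Nat.Coprime N u ∧ Qual N u) ∧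
    (16 * Err N) ^ 3 * (1040 * N) ≤ s ^ 6 * (Nat.totient N : ℝ) ^ 3 ∧
    16 ^ 4 * (N : ℝ) ^ 2 ≤ s ^ 6 * (Nat.totient N : ℝ) ^ 3 ∧
    16 ^ 4 * (N : ℝ) ^ 4 ≤ (s ^ 2 * (Nat.totient N : ℝ) * (U.card : ℝ)) ^ 3 := by
  obtain ⟨C, hC0, hC⟩ := Pool.Agent.Helper919.card_divisors_pow_le 96
  obtain ⟨K1, hK1⟩ : ∃ K1 : ℝ, K1 = (16 * (530 * 16)) ^ 3 * 1040 := ⟨_, rfl⟩
  obtain ⟨W, hW⟩ := exists_nat_ge (max (K1 * C / s ^ 6) (max (16 ^ 4 * C / s ^ 6)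
    (16 ^ 20 * (C : ℝ) ^ 3 / s ^ 30)))
  obtain ⟨N, U, hN, hU, hg⟩ := exists_many (max (max N0 16) ((W + 1) ^ 16))
  have hN0 : N0 ≤ N := (le_max_left _ _).trans ((le_max_left _ _).trans hN)
  have hN16 : 16 ≤ N := (le_max_right _ _).trans ((le_max_left _ _).trans hN)
  have hNW : (W + 1) ^ 16 ≤ N := (le_max_right _ _).trans hN
  have hNr : (0 : ℝ) < N := by
    have : 0 < N := by omega
    exact_mod_cast this
  obtain ⟨w, hw⟩ : ∃ w : ℝ, w = (N : ℝ) ^ (((16 : ℕ) : ℝ)⁻¹) := ⟨_, rfl⟩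
  have hw0 : 0 < w := by rw [hw]; positivity
  have hw16 : w ^ 16 = N := by rw [hw]; exact Real.rpow_inv_natCast_pow hNr.le (by norm_num)
  have hwW : (W : ℝ) + 1 ≤ w := by
    have h1 : ((W : ℝ) + 1) ^ 16 ≤ w ^ 16 := by rw [hw16]; exact_mod_cast hNW
    exact le_of_pow_le_pow_left₀ (by norm_num) hw0.le h1
  have hw1 : 1 ≤ w := by
    have : (0 : ℝ) ≤ W := Nat.cast_nonneg _
    linarith
  have hWw : (W : ℝ) ≤ w := by linarith
  have c1 : K1 * C ≤ s ^ 6 * w := by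
    have := ((le_max_left _ _).trans hW).trans hWw
    rwa [div_le_iff₀ (by positivity), mul_comm w] at this
  have c2 : 16 ^ 4 * (C : ℝ) ≤ s ^ 6 * w := by
    have := (((le_max_left _ _).trans (le_max_right _ _)).trans hW).trans hWw
    rwa [div_le_iff₀ (by positivity), mul_comm w] at this
  have c3 : 16 ^ 20 * (C : ℝ) ^ 3 ≤ s ^ 30 * w := by
    have := (((le_max_right _ _).trans (le_max_right _ _)).trans hW).trans hWw
    rwa [div_le_iff₀ (by positivity), mul_comm w] at this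
  obtain ⟨τ, hτ⟩ : ∃ τ : ℝ, τ = (N.divisors.card : ℝ) := ⟨_, rfl⟩
  have hτ1 : 1 ≤ τ := by
    rw [hτ]
    have : 0 < N.divisors.card := Finset.card_pos.2 ⟨1, Nat.one_mem_divisors.2 (by omega)⟩
    exact_mod_cast this
  have hC1 : (1 : ℝ) ≤ C := by exact_mod_cast hC0
  have hτ6 : τ ^ 6 ≤ C * w := by
    have h1 : (N.divisors.card) ^ 96 ≤ C * N := hC N (by omega)
    have h2 : τ ^ 96 ≤ C * N := by rw [hτ]; exact_mod_cast h1
    have h3 : (τ ^ 6) ^ 16 ≤ (C * w) ^ 16 := by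
      rw [← pow_mul, mul_pow, hw16]
      refine h2.trans ?_
      apply mul_le_mul_of_nonneg_right _ hNr.le
      exact le_self_pow₀ hC1 (by norm_num)
    exact le_of_pow_le_pow_left₀ (by norm_num) (by positivity) h3
  obtain ⟨φ, hφ⟩ : ∃ φ : ℝ, φ = (Nat.totient N : ℝ) := ⟨_, rfl⟩
  have hφτ : w ^ 16 ≤ φ * τ := by
    rw [hw16, hφ, hτ]
    exact_mod_cast le_totient_mul N (by omega)
  have hφ0 : 0 < φ := by
    rw [hφ]
    exact_mod_cast Nat.totient_pos.2 (show 0 < N by omega)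
  obtain ⟨V, hV⟩ : ∃ V : ℝ, V = (U.card : ℝ) := ⟨_, rfl⟩
  have hV5 : w ^ 32 ≤ V ^ 5 := by
    have h1 : (N : ℝ) ^ 2 ≤ V ^ 5 := by rw [hV]; exact_mod_cast hU
    rw [← hw16, ← pow_mul] at h1
    exact h1
  have hV0 : 0 ≤ V := by rw [hV]; positivity
  have hsqrt : √(N : ℝ) = w ^ 8 := by
    rw [← hw16, show w ^ 16 = (w ^ 8) ^ 2 by ring, Real.sqrt_sq (by positivity)]
  have hlog : Real.log N ≤ 16 * w := by
    rw [← hw16, Real.log_pow]
    have := Real.log_le_sub_one_of_pos hw0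
    push_cast
    linarith
  have hlog0 : 0 ≤ Real.log N := Real.log_natCast_nonneg N
  have hErr : Err N ≤ τ * (530 * 16) * w ^ 9 := by
    unfold Err
    rw [← hτ, hsqrt]
    have : w ^ 8 * Real.log N ≤ w ^ 8 * (16 * w) := mul_le_mul_of_nonneg_left hlog (by positivity)
    calc τ * (530 * (w ^ 8 * Real.log N)) ≤ τ * (530 * (w ^ 8 * (16 * w))) := by gcongr
      _ = τ * (530 * 16) * w ^ 9 := by ring
  have hErr0 : 0 ≤ Err N := by unfold Err; positivity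
  have h48 : w ^ 48 ≤ φ ^ 3 * τ ^ 3 := by
    calc w ^ 48 = (w ^ 16) ^ 3 := by ring
      _ ≤ (φ * τ) ^ 3 := by gcongr
      _ = φ ^ 3 * τ ^ 3 := by ring
  have hτ0 : 0 < τ := by linarith
  refine ⟨N, U, hN0, hN16, hg, ?_, ?_, ?_⟩
  · rw [← hφ, ← hw16]
    refine le_of_mul_le_mul_right ?_ (show 0 < τ ^ 3 by positivity)
    calc (16 * Err N) ^ 3 * (1040 * w ^ 16) * τ ^ 3
        ≤ (16 * (τ * (530 * 16) * w ^ 9)) ^ 3 * (1040 * w ^ 16) * τ ^ 3 := by gcongr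
      _ = K1 * τ ^ 6 * w ^ 43 := by rw [hK1]; ring
      _ ≤ K1 * (C * w) * w ^ 43 := by
        have : 0 ≤ K1 := by rw [hK1]; positivity
        gcongr
      _ = (K1 * C) * w ^ 44 := by ring
      _ ≤ (s ^ 6 * w) * w ^ 47 := by
        have h1 : w ^ 44 ≤ w ^ 47 := pow_le_pow_right₀ hw1 (by norm_num)
        have h2 : 0 ≤ s ^ 6 * w := by positivity
        exact mul_le_mul c1 h1 (by positivity) h2
      _ = s ^ 6 * w ^ 48 := by ring
      _ ≤ s ^ 6 * (φ ^ 3 * τ ^ 3) := by gcongr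
      _ = s ^ 6 * φ ^ 3 * τ ^ 3 := by ring
  · rw [← hφ, ← hw16]
    refine le_of_mul_le_mul_right ?_ (show 0 < τ ^ 3 by positivity)
    have h36 : τ ^ 3 ≤ τ ^ 6 := pow_le_pow_right₀ hτ1 (by norm_num)
    calc 16 ^ 4 * (w ^ 16) ^ 2 * τ ^ 3 ≤ 16 ^ 4 * (w ^ 16) ^ 2 * (C * w) := by
          gcongr
          exact h36.trans hτ6
      _ = (16 ^ 4 * C) * w ^ 33 := by ring
      _ ≤ (s ^ 6 * w) * w ^ 47 := by
        have h1 : w ^ 33 ≤ w ^ 47 := pow_le_pow_right₀ hw1 (by norm_num)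
        have h2 : 0 ≤ s ^ 6 * w := by positivity
        exact mul_le_mul c2 h1 (by positivity) h2
      _ = s ^ 6 * w ^ 48 := by ring
      _ ≤ s ^ 6 * (φ ^ 3 * τ ^ 3) := by gcongr
      _ = s ^ 6 * φ ^ 3 * τ ^ 3 := by ring
  · rw [← hφ, ← hw16, ← hV]
    have h5 : (16 ^ 4 * (w ^ 16) ^ 4) ^ 5 ≤ ((s ^ 2 * φ * V) ^ 3) ^ 5 := by
      refine le_of_mul_le_mul_right ?_ (show 0 < τ ^ 15 by positivity)
      have h15 : τ ^ 15 ≤ C ^ 3 * w ^ 3 := by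
        calc τ ^ 15 ≤ τ ^ 18 := pow_le_pow_right₀ hτ1 (by norm_num)
          _ = (τ ^ 6) ^ 3 := by ring
          _ ≤ (C * w) ^ 3 := by gcongr
          _ = C ^ 3 * w ^ 3 := by ring
      calc (16 ^ 4 * (w ^ 16) ^ 4) ^ 5 * τ ^ 15 ≤ (16 ^ 4 * (w ^ 16) ^ 4) ^ 5 * (C ^ 3 * w ^ 3) := by
            gcongr
        _ = (16 ^ 20 * C ^ 3) * w ^ 323 := by ring
        _ ≤ (s ^ 30 * w) * w ^ 335 := by
          have h1 : w ^ 323 ≤ w ^ 335 := pow_le_pow_right₀ hw1 (by norm_num)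
          have h2 : 0 ≤ s ^ 30 * w := by positivity
          exact mul_le_mul c3 h1 (by positivity) h2
        _ = s ^ 30 * ((w ^ 16) ^ 15 * (w ^ 32) ^ 3) := by ring
        _ ≤ s ^ 30 * ((φ * τ) ^ 15 * (V ^ 5) ^ 3) := by gcongr
        _ = ((s ^ 2 * φ * V) ^ 3) ^ 5 * τ ^ 15 := by ring
    exact le_of_pow_le_pow_left₀ (by norm_num) (by positivity) h5

end Pool.Agent.Q3.ULit
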