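import Mathlib
import Pool.Agent.Q3.ULit.Choose

/-!
# One step of the construction
-/

set_option autoImplicit false

open Finset

namespace Pool.Agent.Q3.ULit

/-- The point of a pair. -/
noncomputable def pt (N u p : ℕ) : ℝ × ℝ := ((p : ℝ) / N, Int.fract ((p : ℝ) * u / N))

/-- Good rational points. -/
def Good (N : ℕ) (x : ℝ × ℝ) : Prop :=
  ∃ p u : ℕ, p < N ∧ Nat.Coprime p N ∧ Nat.Coprime N u ∧ Qual N u ∧ x = pt N u p

theorem pt_snd (N u p : ℕ) : (pt N u p).2 = ((p * u % N : ℕ) : ℝ) / N := by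
  unfold pt
  have := Int.fract_div_natCast_eq_div_natCast_mod (k := ℝ) (m := p * u) (n := N)
  push_cast at this ⊢
  exact this

theorem abs_sub_ge (a b : ℕ) (N : ℕ) (hN : 0 < N) (h : a ≠ b) :
    1 / (N : ℝ) ≤ |(a : ℝ) / N - (b : ℝ) / N| := by
  have hNr : (0 : ℝ) < N := by exact_mod_cast hN
  rw [← sub_div, abs_div, abs_of_pos hNr]
  apply div_le_div_of_nonneg_right _ hNr.le
  have h1 : (a : ℤ) - b ≠ 0 := by omega
  have h2 := Int.one_le_abs h1
  exact_mod_cast h2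

theorem sep (N u u' p p' : ℕ) (hu : u < N) (hu' : u' < N) (hp : Nat.Coprime p N)
    (hne : ¬ (u = u' ∧ p = p')) : 1 / (N : ℝ) ≤ dist (pt N u p) (pt N u' p') := by
  have hN : 0 < N := by omega
  rw [Prod.dist_eq]
  by_cases h : p = p'
  · subst h
    refine le_trans ?_ (le_max_right _ _)
    rw [pt_snd, pt_snd, Real.dist_eq]
    apply abs_sub_ge _ _ _ hN
    intro heq
    apply hne
    have h1 : p * u ≡ p * u' [MOD N] := heq
    have h2 : u ≡ u' [MOD N] := Nat.ModEq.cancel_left_of_coprime (Nat.coprime_comm.1 hp) h1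
    have h3 : u % N = u' % N := h2
    rw [Nat.mod_eq_of_lt hu, Nat.mod_eq_of_lt hu'] at h3
    exact ⟨h3, rfl⟩
  · refine le_trans ?_ (le_max_left _ _)
    rw [Real.dist_eq]
    exact abs_sub_ge _ _ _ hN h

theorem qsep (N u p p' : ℕ) (hq : Qual N u) (hp : p < N) (hp' : p' < N) (hne : p ≠ p') :
    1 / (65 * (N : ℝ)) ≤ dist (pt N u p) (pt N u p') ^ 2 := by
  have hN : 0 < N := by omega
  have hNr : (0 : ℝ) < N := by exact_mod_cast hN
  have h1 := hq ((p : ℤ) - p') (((p * u % N : ℕ) : ℤ) - ((p' * u % N : ℕ) : ℤ)) (by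
    have e1 := Nat.mod_add_div (p * u) N
    have e2 := Nat.mod_add_div (p' * u) N
    have e1' : (((p * u % N : ℕ) : ℤ)) = (p : ℤ) * u - N * ((p * u / N : ℕ) : ℤ) := by
      have : (((p * u % N : ℕ) : ℤ)) + N * ((p * u / N : ℕ) : ℤ) = (p : ℤ) * u := by exact_mod_cast e1
      linarith
    have e2' : (((p' * u % N : ℕ) : ℤ)) = (p' : ℤ) * u - N * ((p' * u / N : ℕ) : ℤ) := by
      have : (((p' * u % N : ℕ) : ℤ)) + N * ((p' * u / N : ℕ) : ℤ) = (p' : ℤ) * u := by
        exact_mod_cast e2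
      linarith
    rw [e1', e2']
    exact ⟨((p' * u / N : ℕ) : ℤ) - ((p * u / N : ℕ) : ℤ), by ring⟩) (by
    intro hdvd
    have h2 : |(p : ℤ) - p'| < N := by rw [abs_lt]; constructor <;> omega
    have := Int.eq_zero_of_abs_lt_dvd hdvd h2
    omega)
  have h2 : (N : ℝ) ≤ 65 * (|(p : ℝ) - p'| * |((p * u % N : ℕ) : ℝ) - ((p' * u % N : ℕ) : ℝ)|) := by
    obtain ⟨A', hA'⟩ : ∃ A', A' = p * u % N := ⟨_, rfl⟩
    obtain ⟨B', hB'⟩ : ∃ B', B' = p' * u % N := ⟨_, rfl⟩
    rw [← hA', ← hB'] at h1 ⊢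
    have := (Int.cast_le (R := ℝ)).2 h1
    simpa using this
  have h3 : |(p : ℝ) / N - p' / N| ≤ dist (pt N u p) (pt N u p') := by
    rw [Prod.dist_eq]
    refine le_trans (le_of_eq ?_) (le_max_left _ _)
    rw [Real.dist_eq]; rfl
  have h4 : |((p * u % N : ℕ) : ℝ) / N - ((p' * u % N : ℕ) : ℝ) / N| ≤
      dist (pt N u p) (pt N u p') := by
    rw [Prod.dist_eq]
    refine le_trans (le_of_eq ?_) (le_max_right _ _)
    rw [Real.dist_eq, pt_snd, pt_snd]
  calc 1 / (65 * (N : ℝ)) ≤ |(p : ℝ) / N - p' / N| *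
        |((p * u % N : ℕ) : ℝ) / N - ((p' * u % N : ℕ) : ℝ) / N| := by
        rw [← sub_div, ← sub_div, abs_div, abs_div, abs_of_pos hNr, div_mul_div_comm,
          div_le_div_iff₀ (by positivity) (by positivity)]
        nlinarith
    _ ≤ dist (pt N u p) (pt N u p') * dist (pt N u p) (pt N u p') :=
        mul_le_mul h3 h4 (abs_nonneg _) dist_nonneg
    _ = _ := by ring

/-- The good pairs of a box. -/
noncomputable def Wf (N : ℕ) (U : Finset ℕ) (a b h : ℝ) : Finset (Σ _ : ℕ, ℕ) :=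
  U.sigma fun u => Cop N u a b h

theorem Wf_card (N : ℕ) (hN : 16 ≤ N) (U : Finset ℕ) (hU : ∀ u ∈ U, u < N ∧ Nat.Coprime N u ∧ Qual N u)
    (a b h : ℝ) (ha : 0 ≤ a) (hh : 0 ≤ h) (hh2 : h ≤ 1 / 2) (hah : a + h ≤ 1) (hb : 0 ≤ b)
    (hbh : b + h ≤ 1) :
    (U.card : ℝ) * (h ^ 2 * (Nat.totient N : ℝ) - Err N) ≤ (Wf N U a b h).card ∧
    ((Wf N U a b h).card : ℝ) ≤ (U.card : ℝ) * (h ^ 2 * (Nat.totient N : ℝ) + Err N) := by
  unfold Wf
  rw [Finset.card_sigma]
  push_cast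
  have hk : ∀ u ∈ U, |((Cop N u a b h).card : ℝ) - h ^ 2 * (Nat.totient N : ℝ)| ≤ Err N :=
    fun u hu => cop_bound N u hN (hU u hu).2.2 a b h ha hh hh2 hah hb hbh
  constructor
  · rw [← nsmul_eq_mul]
    apply Finset.card_nsmul_le_sum
    intro u hu
    have := (abs_le.1 (hk u hu)).1
    linarith
  · rw [← nsmul_eq_mul]
    apply Finset.sum_le_card_nsmul
    intro u hu
    have := (abs_le.1 (hk u hu)).2
    linarith

theorem exists_enum {α : Type} [Inhabited α] (W : Finset α) (M : ℕ) (hM : M ≤ W.card) : ∃ e : ℕ → α,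
    (∀ k < M, e k ∈ W) ∧ ∀ k < M, ∀ k' < M, e k = e k' → k = k' := by
  classical
  refine ⟨fun k => if h : k < W.card then ((W.equivFin.symm ⟨k, h⟩ : W) : α) else default, ?_, ?_⟩
  · intro k hk
    simp only
    rw [dif_pos (lt_of_lt_of_le hk hM)]
    exact Subtype.coe_prop _
  · intro k hk k' hk' h
    simp only at h
    rw [dif_pos (lt_of_lt_of_le hk hM), dif_pos (lt_of_lt_of_le hk' hM)] at h
    have := W.equivFin.symm.injective (Subtype.ext h)
    exact congrArg Fin.val this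

theorem clamp (z R x : ℝ) (hR : 0 < R) (hR6 : 3 * R ≤ 1 / 2) :
    0 ≤ max 0 (min (z - R) (1 - 3 * R)) ∧ max 0 (min (z - R) (1 - 3 * R)) + 3 * R ≤ 1 ∧
    (0 ≤ x → x < 1 → |x - z| ≤ R → max 0 (min (z - R) (1 - 3 * R)) ≤ x ∧
      x < max 0 (min (z - R) (1 - 3 * R)) + 3 * R) := by
  refine ⟨le_max_left _ _, ?_, ?_⟩
  · have : max 0 (min (z - R) (1 - 3 * R)) ≤ 1 - 3 * R :=
      max_le (by linarith) (min_le_right _ _)
    linarith
  · intro h0 h1 h
    rw [abs_le] at h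
    constructor
    · apply max_le h0
      exact (min_le_left _ _).trans (by linarith)
    · rcases le_total (z - R) (1 - 3 * R) with h2 | h2
      · have : z - R ≤ max 0 (min (z - R) (1 - 3 * R)) := by
          rw [min_eq_left h2]; exact le_max_right _ _
        linarith
      · have : 1 - 3 * R ≤ max 0 (min (z - R) (1 - 3 * R)) := by
          rw [min_eq_right h2]; exact le_max_right _ _
        linarith

theorem step (s m : ℝ) (hs : 0 < s) (hs12 : s ≤ 1 / 12) (hm0 : 0 < m) (hm1 : m ≤ 1)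
    (hms : m ^ 3 ≤ s ^ 2) (N0 : ℕ) :
    ∃ (N M : ℕ) (f : ℝ × ℝ → ℕ → ℝ × ℝ), N0 ≤ N ∧ 16 ≤ N ∧ 0 < M ∧
      (m / M) ^ 3 ≤ (1 / (4 * (N : ℝ) ^ 2)) ^ 2 ∧
      ∀ c : ℝ × ℝ, 0 ≤ c.1 → 0 ≤ c.2 → c.1 + s ≤ 1 → c.2 + s ≤ 1 →
        (∀ k < M, Good N (f c k) ∧ c.1 ≤ (f c k).1 ∧ (f c k).1 ≤ c.1 + s / 2 ∧
          c.2 ≤ (f c k).2 ∧ (f c k).2 ≤ c.2 + s / 2) ∧
        (∀ k < M, ∀ k' < M, k ≠ k' → 1 / (N : ℝ) ≤ dist (f c k) (f c k')) ∧
        (∀ z : ℝ × ℝ, ∀ r, 1 / (4 * (N : ℝ) ^ 2) ≤ r → r ≤ s →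
          m * (((range M).filter (fun k => dist (f c k) z ≤ 2 * r)).card : ℝ) / M ≤
            600 * r ^ ((2 : ℝ) / 3)) := by
  classical
  obtain ⟨N, U, hN0, hN16, hU, A3, A4, A5⟩ := choose_N s hs N0
  have hN : 0 < N := by omega
  have hNr : (0 : ℝ) < N := by exact_mod_cast hN
  have hN1 : (16 : ℝ) ≤ N := by exact_mod_cast hN16
  obtain ⟨φ, hφ⟩ : ∃ φ : ℝ, φ = (Nat.totient N : ℝ) := ⟨_, rfl⟩
  obtain ⟨V, hV⟩ : ∃ V : ℝ, V = (U.card : ℝ) := ⟨_, rfl⟩
  obtain ⟨E, hE⟩ : ∃ E : ℝ, E = Err N := ⟨_, rfl⟩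
  rw [← hφ] at A3 A4 A5
  rw [← hV] at A5
  rw [← hE] at A3
  have hφ0 : 0 < φ := by
    rw [hφ]; exact_mod_cast Nat.totient_pos.2 hN
  have hV0 : 0 ≤ V := by rw [hV]; positivity
  have hE0 : 0 ≤ E := by rw [hE]; unfold Err; have := Real.log_natCast_nonneg N; positivity
  obtain ⟨y, hy⟩ : ∃ y : ℝ, y = s ^ 2 * φ * V / 16 := ⟨_, rfl⟩
  have hy0 : 0 ≤ y := by rw [hy]; positivity
  have hy3 : 16 * (N : ℝ) ^ 4 ≤ y ^ 3 := by
    rw [hy, div_pow]; rw [le_div_iff₀ (by norm_num)]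
    calc 16 * (N : ℝ) ^ 4 * 16 ^ 3 = 16 ^ 4 * (N : ℝ) ^ 4 := by ring
      _ ≤ _ := A5
  have hy1 : 1 ≤ y := by
    by_contra hcon
    push Not at hcon
    have h1 : y ^ 3 ≤ 1 := pow_le_one₀ hy0 hcon.le
    have h2 : (1 : ℝ) ≤ (N : ℝ) ^ 4 := one_le_pow₀ (by linarith)
    linarith
  have hVpos : 0 < V := by
    rcases hV0.eq_or_lt with h | h
    · rw [← h] at hy; rw [hy] at hy1; norm_num at hy1
    · exact h
  obtain ⟨M, hM⟩ : ∃ M, M = ⌈y⌉₊ := ⟨_, rfl⟩
  have hMy : y ≤ M := by rw [hM]; exact Nat.le_ceil _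
  have hMy2 : (M : ℝ) ≤ 2 * y := by
    have : (M : ℝ) < y + 1 := by rw [hM]; exact Nat.ceil_lt_add_one hy0
    linarith
  have hM0 : (0 : ℝ) < M := by linarith
  have hEs : 16 * E ≤ s ^ 2 * φ := by
    have h1 : (16 * E) ^ 3 ≤ (s ^ 2 * φ) ^ 3 := by
      calc (16 * E) ^ 3 = (16 * E) ^ 3 * 1 := by ring
        _ ≤ (16 * E) ^ 3 * (1040 * N) := by
          apply mul_le_mul_of_nonneg_left _ (by positivity)
          linarith
        _ ≤ s ^ 6 * φ ^ 3 := A3
        _ = (s ^ 2 * φ) ^ 3 := by ring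
    exact le_of_pow_le_pow_left₀ (by norm_num) (by positivity) h1
  -- enough points
  have hWM : ∀ c : ℝ × ℝ, 0 ≤ c.1 → 0 ≤ c.2 → c.1 + s ≤ 1 → c.2 + s ≤ 1 →
      M ≤ (Wf N U c.1 c.2 (s / 2)).card := by
    intro c h1 h2 h3 h4
    have h5 := (Wf_card N hN16 U hU c.1 c.2 (s / 2) h1 (by linarith) (by linarith) (by linarith) h2
      (by linarith)).1
    rw [← hφ, ← hV, ← hE] at h5
    have h6 : 2 * y ≤ V * ((s / 2) ^ 2 * φ - E) := by
      rw [hy]
      have : V * (s ^ 2 * φ / 8) ≤ V * ((s / 2) ^ 2 * φ - E) := by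
        apply mul_le_mul_of_nonneg_left _ hV0
        nlinarith
      nlinarith
    exact_mod_cast hMy2.trans (h6.trans h5)
  have hex : ∀ c : ℝ × ℝ, ∃ e : ℕ → (Σ _ : ℕ, ℕ), (0 ≤ c.1 → 0 ≤ c.2 → c.1 + s ≤ 1 → c.2 + s ≤ 1 →
      (∀ k < M, e k ∈ Wf N U c.1 c.2 (s / 2)) ∧ ∀ k < M, ∀ k' < M, e k = e k' → k = k') := by
    intro c
    by_cases h : 0 ≤ c.1 ∧ 0 ≤ c.2 ∧ c.1 + s ≤ 1 ∧ c.2 + s ≤ 1
    · have : Inhabited (Σ _ : ℕ, ℕ) := ⟨⟨0, 0⟩⟩
      obtain ⟨e, he⟩ := exists_enum (Wf N U c.1 c.2 (s / 2)) M (hWM c h.1 h.2.1 h.2.2.1 h.2.2.2)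
      exact ⟨e, fun _ _ _ _ => he⟩
    · exact ⟨fun _ => ⟨0, 0⟩, fun h1 h2 h3 h4 => absurd ⟨h1, h2, h3, h4⟩ h⟩
  choose e he using hex
  have hMd : (m / M) ^ 3 ≤ (1 / (4 * (N : ℝ) ^ 2)) ^ 2 := by
    rw [div_pow, div_pow, div_le_div_iff₀ (by positivity) (by positivity)]
    have h1 : m ^ 3 ≤ 1 := pow_le_one₀ hm0.le hm1
    have h2 : y ^ 3 ≤ (M : ℝ) ^ 3 := pow_le_pow_left₀ hy0 hMy 3
    have h3 : (0 : ℝ) < (N : ℝ) ^ 4 := by positivity
    calc m ^ 3 * (4 * (N : ℝ) ^ 2) ^ 2 = m ^ 3 * (16 * (N : ℝ) ^ 4) := by ring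
      _ ≤ 1 * (16 * (N : ℝ) ^ 4) := by gcongr
      _ ≤ 1 ^ 2 * (M : ℝ) ^ 3 := by linarith
  refine ⟨N, M, fun c k => pt N (e c k).1 (e c k).2, hN0, hN16, by exact_mod_cast hM0, hMd, ?_⟩
  intro c hc1 hc2 hc3 hc4
  obtain ⟨hmem, hinj⟩ := he c hc1 hc2 hc3 hc4
  have hmem' : ∀ k < M, (e c k).1 ∈ U ∧ (e c k).2 < N ∧ Nat.Coprime (e c k).2 N ∧
      InBox N (e c k).1 c.1 c.2 (s / 2) (e c k).2 := by
    intro k hk
    have h1 := hmem k hk
    unfold Wf at h1
    rw [Finset.mem_sigma] at h1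
    obtain ⟨h1, h2⟩ := h1
    unfold Cop at h2
    rw [Finset.mem_filter, Finset.mem_range] at h2
    exact ⟨h1, h2.1, h2.2.1, h2.2.2⟩
  have hsep : ∀ k < M, ∀ k' < M, k ≠ k' → 1 / (N : ℝ) ≤
      dist (pt N (e c k).1 (e c k).2) (pt N (e c k').1 (e c k').2) := by
    intro k hk k' hk' hne
    obtain ⟨a1, a2, a3, a4⟩ := hmem' k hk
    obtain ⟨b1, b2, b3, b4⟩ := hmem' k' hk'
    apply sep N _ _ _ _ (hU _ a1).1 (hU _ b1).1 a3
    rintro ⟨h1, h2⟩
    apply hne
    apply hinj k hk k' hk'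
    exact Sigma.ext h1 (heq_of_eq h2)
  refine ⟨?_, hsep, ?_⟩
  · intro k hk
    obtain ⟨a1, a2, a3, b1, b2, b3, b4⟩ := hmem' k hk
    exact ⟨⟨_, _, a2, a3, (hU _ a1).2.1, (hU _ a1).2.2, rfl⟩, b1, b2.le, b3, b4.le⟩
  · intro z r hr1 hr2
    have hr0 : 0 < r := lt_of_lt_of_le (by positivity) hr1
    obtain ⟨t, ht⟩ : ∃ t : ℝ, t = r ^ ((2 : ℝ) / 3) := ⟨_, rfl⟩
    have ht0 : 0 ≤ t := by rw [ht]; positivity
    have ht3 : t ^ 3 = r ^ 2 := by
      rw [ht, ← Real.rpow_natCast, ← Real.rpow_mul hr0.le, ← Real.rpow_natCast]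
      norm_num
    rw [← ht]
    obtain ⟨T, hT⟩ : ∃ T : ℕ, T = ((range M).filter
      (fun k => dist (pt N (e c k).1 (e c k).2) z ≤ 2 * r)).card := ⟨_, rfl⟩
    have hcube : ∀ x : ℝ, x ^ 3 ≤ r ^ 2 → x ≤ t := by
      intro x hx
      rw [← ht3] at hx
      exact le_of_pow_le_pow_left₀ (by norm_num) ht0 hx
    show m * (((range M).filter
      (fun k => dist (pt N (e c k).1 (e c k).2) z ≤ 2 * r)).card : ℝ) / M ≤ 600 * t
    rw [← hT]
    have hclose : ∀ k k' : ℕ, dist (pt N (e c k).1 (e c k).2) z ≤ 2 * r →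
        dist (pt N (e c k').1 (e c k').2) z ≤ 2 * r →
        dist (pt N (e c k).1 (e c k).2) (pt N (e c k').1 (e c k').2) ≤ 4 * r := by
      intro k k' h1 h2
      have := dist_triangle_right (pt N (e c k).1 (e c k).2) (pt N (e c k').1 (e c k').2) z
      linarith
    by_cases hI : 4 * r < 1 / N
    · -- at most one point
      have hT1 : T ≤ 1 := by
        rw [hT, Finset.card_le_one]
        intro k hk k' hk'
        rw [Finset.mem_filter, Finset.mem_range] at hk hk'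
        by_contra hne
        have h1 := hsep k hk.1 k' hk'.1 hne
        have h2 := hclose k k' hk.2 hk'.2
        linarith
      have h1 : m / M ≤ t := by
        apply hcube
        exact hMd.trans (pow_le_pow_left₀ (by positivity) hr1 2)
      calc m * (T : ℝ) / M ≤ m * 1 / M := by
            have : (T : ℝ) ≤ 1 := by exact_mod_cast hT1
            gcongr
        _ = m / M := by rw [mul_one]
        _ ≤ t := h1
        _ ≤ 600 * t := by linarith
    · push Not at hI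
      by_cases hII : (4 * r) ^ 2 < 1 / (65 * (N : ℝ))
      · -- at most one point for each `u`
        have hTU : T ≤ U.card := by
          rw [hT]
          apply Finset.card_le_card_of_injOn (fun k => (e c k).1)
          · intro k hk
            have hk' : k ∈ (range M).filter
              (fun k => dist (pt N (e c k).1 (e c k).2) z ≤ 2 * r) := hk
            rw [Finset.mem_filter, Finset.mem_range] at hk'
            exact (hmem' k hk'.1).1
          · intro k hk k' hk' heq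
            have hk1 : k ∈ (range M).filter
              (fun k => dist (pt N (e c k).1 (e c k).2) z ≤ 2 * r) := hk
            have hk1' : k' ∈ (range M).filter
              (fun k => dist (pt N (e c k).1 (e c k).2) z ≤ 2 * r) := hk'
            rw [Finset.mem_filter, Finset.mem_range] at hk1 hk1'
            have heq' : (e c k).1 = (e c k').1 := heq
            by_contra hne
            have h2 := hclose k k' hk1.2 hk1'.2
            obtain ⟨a1, a2, a3, a4⟩ := hmem' k hk1.1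
            obtain ⟨b1, b2, b3, b4⟩ := hmem' k' hk1'.1
            rw [← heq'] at h2
            have hpp : (e c k).2 ≠ (e c k').2 := by
              intro h3
              apply hne
              apply hinj k hk1.1 k' hk1'.1
              exact Sigma.ext heq' (heq_of_eq h3)
            have h3 := qsep N (e c k).1 _ _ (hU _ a1).2.2 a2 b2 hpp
            have h4 : dist (pt N (e c k).1 (e c k).2) (pt N (e c k).1 (e c k').2) ^ 2 ≤ (4 * r) ^ 2 :=
              pow_le_pow_left₀ dist_nonneg h2 2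
            linarith
        have h1 : m * (T : ℝ) / M ≤ 16 / (s ^ 2 * φ) := by
          have hTV : (T : ℝ) ≤ V := by rw [hV]; exact_mod_cast hTU
          calc m * (T : ℝ) / M ≤ 1 * V / y := by gcongr
            _ = 16 / (s ^ 2 * φ) := by rw [hy]; field_simp
        refine h1.trans ?_
        have h2 : 16 / (s ^ 2 * φ) ≤ t := by
          apply hcube
          have h3 : (1 / (4 * (N : ℝ))) ^ 2 ≤ r ^ 2 := by
            apply pow_le_pow_left₀ (by positivity)
            rw [div_le_iff₀ (by positivity)] at hI ⊢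
            linarith
          refine le_trans ?_ h3
          rw [div_pow, div_pow, div_le_div_iff₀ (by positivity) (by positivity)]
          calc 16 ^ 3 * (4 * (N : ℝ)) ^ 2 = 16 ^ 4 * (N : ℝ) ^ 2 := by ring
            _ ≤ s ^ 6 * φ ^ 3 := A4
            _ = 1 ^ 2 * (s ^ 2 * φ) ^ 3 := by ring
        linarith
      · push Not at hII
        -- the sieve bound
        have hb := fun x => clamp z.1 (2 * r) x (by linarith) (by linarith)
        have hb' := fun x => clamp z.2 (2 * r) x (by linarith) (by linarith)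
        obtain ⟨α, hα⟩ : ∃ α : ℝ, α = max 0 (min (z.1 - 2 * r) (1 - 3 * (2 * r))) := ⟨_, rfl⟩
        obtain ⟨α', hα'⟩ : ∃ α' : ℝ, α' = max 0 (min (z.2 - 2 * r) (1 - 3 * (2 * r))) := ⟨_, rfl⟩
        rw [← hα] at hb
        rw [← hα'] at hb'
        have hTW : T ≤ (Wf N U α α' (3 * (2 * r))).card := by
          rw [hT]
          apply Finset.card_le_card_of_injOn (fun k => e c k)
          · intro k hk
            have hk' : k ∈ (range M).filter
              (fun k => dist (pt N (e c k).1 (e c k).2) z ≤ 2 * r) := hk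
            rw [Finset.mem_filter, Finset.mem_range, Prod.dist_eq, max_le_iff, Real.dist_eq,
              Real.dist_eq] at hk'
            obtain ⟨hk1, hk2, hk3⟩ := hk'
            obtain ⟨a1, a2, a3, a4⟩ := hmem' k hk1
            show e c k ∈ Wf N U α α' (3 * (2 * r))
            unfold Wf
            rw [Finset.mem_sigma]
            refine ⟨a1, ?_⟩
            unfold Cop
            rw [Finset.mem_filter, Finset.mem_range]
            have a2r : ((e c k).2 : ℝ) < N := by exact_mod_cast a2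
            have c1 := (hb (((e c k).2 : ℝ) / N)).2.2 (by positivity)
              (by rw [div_lt_one hNr]; exact a2r) hk2
            have c2 := (hb' (Int.fract (((e c k).2 : ℝ) * (e c k).1 / N))).2.2 (Int.fract_nonneg _)
              (Int.fract_lt_one _) hk3
            exact ⟨a2, a3, c1.1, c1.2, c2.1, c2.2⟩
          · intro k hk k' hk' heq
            have hk1 : k ∈ (range M).filter
              (fun k => dist (pt N (e c k).1 (e c k).2) z ≤ 2 * r) := hk
            have hk1' : k' ∈ (range M).filter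
              (fun k => dist (pt N (e c k).1 (e c k).2) z ≤ 2 * r) := hk'
            rw [Finset.mem_filter, Finset.mem_range] at hk1 hk1'
            exact hinj k hk1.1 k' hk1'.1 heq
        have h5 := (Wf_card N hN16 U hU α α' (3 * (2 * r)) (hb 0).1 (by linarith) (by linarith)
          (hb 0).2.1 (hb' 0).1 (hb' 0).2.1).2
        rw [← hφ, ← hV, ← hE] at h5
        have hTr : (T : ℝ) ≤ V * ((3 * (2 * r)) ^ 2 * φ + E) := by
          have : (T : ℝ) ≤ ((Wf N U α α' (3 * (2 * r))).card : ℝ) := by exact_mod_cast hTW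
          linarith
        have h6 : m * (T : ℝ) / M ≤ 576 * (m * r ^ 2 / s ^ 2) + 16 * E / (s ^ 2 * φ) := by
          calc m * (T : ℝ) / M ≤ m * (V * ((3 * (2 * r)) ^ 2 * φ + E)) / y := by gcongr
            _ = 576 * (m * r ^ 2 / s ^ 2) + m * (16 * E / (s ^ 2 * φ)) := by
              rw [hy]; field_simp; ring
            _ ≤ _ := by
              have : 0 ≤ 16 * E / (s ^ 2 * φ) := by positivity
              nlinarith
        have h7 : m * r ^ 2 / s ^ 2 ≤ t := by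
          apply hcube
          rw [div_pow, mul_pow, div_le_iff₀ (by positivity)]
          have h8 : r ^ 4 ≤ s ^ 4 := pow_le_pow_left₀ hr0.le hr2 4
          calc m ^ 3 * (r ^ 2) ^ 3 ≤ s ^ 2 * (r ^ 2) ^ 3 := by gcongr
            _ = r ^ 2 * (s ^ 2 * r ^ 4) := by ring
            _ ≤ r ^ 2 * (s ^ 2 * s ^ 4) := by gcongr
            _ = r ^ 2 * (s ^ 2) ^ 3 := by ring
        have h8 : 16 * E / (s ^ 2 * φ) ≤ t := by
          apply hcube
          have h9 : 1 / (1040 * (N : ℝ)) ≤ r ^ 2 := by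
            rw [div_le_iff₀ (by positivity)] at hII ⊢
            nlinarith
          refine le_trans ?_ h9
          rw [div_pow, div_le_div_iff₀ (by positivity) (by positivity)]
          calc (16 * E) ^ 3 * (1040 * (N : ℝ)) ≤ s ^ 6 * φ ^ 3 := A3
            _ = 1 * (s ^ 2 * φ) ^ 3 := by ring
        linarith

end Pool.Agent.Q3.ULit
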