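import Mathlib
import Pool.Agent.Q3.ULit.Step
import Pool.Agent.Q3.ExpK.Dim

/-!
# The Cantor set
-/

set_option autoImplicit false

open Filter Topology Set MeasureTheory
open scoped ENNReal NNReal

namespace Pool.Agent.Q3.ULit

open Pool.Agent.Q3.ExpK

/-- Admissible states: side and mass. -/
def St : Type := {x : ℝ × ℝ // 0 < x.1 ∧ x.1 ≤ 1 / 12 ∧ 0 < x.2 ∧ x.2 ≤ 1 ∧ x.2 ^ 3 ≤ x.1 ^ 2}

/-- The properties of a step. -/
def StepP (x y : St) (n N M : ℕ) (f : ℝ × ℝ → ℕ → ℝ × ℝ) : Prop :=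
  n ≤ N ∧ 16 ≤ N ∧ 0 < M ∧ y.1.1 = 1 / (4 * (N : ℝ) ^ 2) ∧ y.1.2 = x.1.2 / M ∧
  y.1.1 ≤ x.1.1 / 2 ∧
  ∀ c : ℝ × ℝ, 0 ≤ c.1 → 0 ≤ c.2 → c.1 + x.1.1 ≤ 1 → c.2 + x.1.1 ≤ 1 →
    (∀ k < M, Good N (f c k) ∧ c.1 ≤ (f c k).1 ∧ (f c k).1 ≤ c.1 + x.1.1 / 2 ∧
      c.2 ≤ (f c k).2 ∧ (f c k).2 ≤ c.2 + x.1.1 / 2) ∧
    (∀ k < M, ∀ k' < M, k ≠ k' → 1 / (N : ℝ) ≤ dist (f c k) (f c k')) ∧
    (∀ z : ℝ × ℝ, ∀ r, y.1.1 ≤ r → r ≤ x.1.1 →
      x.1.2 * (((Finset.range M).filter (fun k => dist (f c k) z ≤ 2 * r)).card : ℝ) / M ≤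
        600 * r ^ ((2 : ℝ) / 3))

theorem step_next (x : St) (n : ℕ) : ∃ (y : St) (N M : ℕ) (f : ℝ × ℝ → ℕ → ℝ × ℝ),
    StepP x y n N M f := by
  obtain ⟨⟨s, m⟩, h1, h2, h3, h4, h5⟩ := x
  simp only at h1 h2 h3 h4 h5
  obtain ⟨N, M, f, hN0, hN16, hM, hMd, hf⟩ := step s m h1 h2 h3 h4 h5 (max n ⌈1 / s⌉₊)
  have hNn : n ≤ N := (le_max_left _ _).trans hN0
  have hNs : 1 / s ≤ N := by
    have : ⌈1 / s⌉₊ ≤ N := (le_max_right _ _).trans hN0
    exact Nat.ceil_le.1 this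
  have hN16r : (16 : ℝ) ≤ N := by exact_mod_cast hN16
  have hM1 : (1 : ℝ) ≤ M := by exact_mod_cast hM
  have hs' : 1 / (4 * (N : ℝ) ^ 2) ≤ s / 2 := by
    rw [div_le_iff₀ h1] at hNs
    rw [div_le_div_iff₀ (by positivity) (by norm_num)]
    have : 1 ≤ N * s * N := by nlinarith
    nlinarith
  have hy : 0 < (1 / (4 * (N : ℝ) ^ 2)) ∧ (1 / (4 * (N : ℝ) ^ 2)) ≤ 1 / 12 ∧ 0 < m / M ∧ m / M ≤ 1 ∧
      (m / M) ^ 3 ≤ (1 / (4 * (N : ℝ) ^ 2)) ^ 2 := by
    refine ⟨by positivity, by linarith, by positivity, ?_, hMd⟩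
    rw [div_le_one (by linarith)]
    linarith
  exact ⟨⟨(1 / (4 * (N : ℝ) ^ 2), m / M), hy⟩, N, M, f, hNn, hN16, hM, rfl, rfl, hs', hf⟩

theorem seqs : ∃ (x : ℕ → St) (N M : ℕ → ℕ) (f : ℕ → ℝ × ℝ → ℕ → ℝ × ℝ),
    (x 0).1 = (1 / 12, 1 / 12) ∧ ∀ n, StepP (x n) (x (n + 1)) n (N n) (M n) (f n) := by
  choose nx N M f h using step_next
  have h0 : 0 < ((1 / 12, 1 / 12) : ℝ × ℝ).1 ∧ ((1 / 12, 1 / 12) : ℝ × ℝ).1 ≤ 1 / 12 ∧
      0 < ((1 / 12, 1 / 12) : ℝ × ℝ).2 ∧ ((1 / 12, 1 / 12) : ℝ × ℝ).2 ≤ 1 ∧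
      ((1 / 12, 1 / 12) : ℝ × ℝ).2 ^ 3 ≤ ((1 / 12, 1 / 12) : ℝ × ℝ).1 ^ 2 := by
    norm_num
  let x : ℕ → St := fun n => Nat.rec (⟨(1 / 12, 1 / 12), h0⟩ : St) (fun n y => nx y n) n
  exact ⟨x, fun n => N (x n) n, fun n => M (x n) n, fun n => f (x n) n, rfl, fun n => h (x n) n⟩

section tree

variable {x : ℕ → St} {N M : ℕ → ℕ} {f : ℕ → ℝ × ℝ → ℕ → ℝ × ℝ}

/-- The corners. -/
noncomputable def cor (M : ℕ → ℕ) (f : ℕ → ℝ × ℝ → ℕ → ℝ × ℝ) (ω : ℕ → ℕ) : ℕ → ℝ × ℝ
  | 0 => (0, 0)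
  | n + 1 => f n (cor M f ω n) (ω n % M n)

/-- The limit point. -/
noncomputable def Pl (M : ℕ → ℕ) (f : ℕ → ℝ × ℝ → ℕ → ℝ × ℝ) (ω : ℕ → ℕ) : ℝ × ℝ :=
  (⨆ n, (cor M f ω n).1, ⨆ n, (cor M f ω n).2)

theorem cor_prefix (ω ω' : ℕ → ℕ) : ∀ n, (∀ i < n, ω i = ω' i) → cor M f ω n = cor M f ω' n := by
  intro n
  induction n with
  | zero => intro _; rfl
  | succ n ih =>
    intro h
    simp only [cor]
    rw [ih fun i hi => h i (by omega), h n (by omega)]

theorem measurable_cor (n : ℕ) : Measurable fun ω => cor M f ω n := by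
  have e : (fun ω : ℕ → ℕ => cor M f ω n) =
      (fun v : Fin n → ℕ => cor M f (fun i => if h : i < n then v ⟨i, h⟩ else 0) n) ∘
      (fun (ω : ℕ → ℕ) (i : Fin n) => ω i) := by
    funext ω
    apply cor_prefix
    intro i hi
    simp [hi]
  rw [e]
  apply (measurable_of_countable _).comp
  exact measurable_pi_lambda _ fun i => measurable_pi_apply _

theorem measurable_Pl : Measurable (Pl M f) := by
  apply Measurable.prodMk
  · exact Measurable.iSup fun n => (measurable_cor n).fst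
  · exact Measurable.iSup fun n => (measurable_cor n).snd

variable (hx0 : (x 0).1 = (1 / 12, 1 / 12)) (hst : ∀ n, StepP (x n) (x (n + 1)) n (N n) (M n) (f n))

include hx0 hst in
theorem cor_mem (ω : ℕ → ℕ) (n : ℕ) : 0 ≤ (cor M f ω n).1 ∧ 0 ≤ (cor M f ω n).2 ∧
    (cor M f ω n).1 + (x n).1.1 ≤ 1 ∧ (cor M f ω n).2 + (x n).1.1 ≤ 1 := by
  induction n with
  | zero => rw [hx0]; simp only [cor]; norm_num
  | succ n ih =>
    obtain ⟨_, _, hM, _, _, hs, hf⟩ := hst n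
    obtain ⟨_, a1, a2, a3, a4⟩ := (hf _ ih.1 ih.2.1 ih.2.2.1 ih.2.2.2).1 (ω n % M n) (Nat.mod_lt _ hM)
    simp only [cor]
    obtain ⟨b1, b2, b3, b4⟩ := ih
    exact ⟨by linarith, by linarith, by linarith, by linarith⟩

include hx0 hst in
theorem cor_step (ω : ℕ → ℕ) (n : ℕ) : Good (N n) (cor M f ω (n + 1)) ∧
    (cor M f ω n).1 ≤ (cor M f ω (n + 1)).1 ∧
    (cor M f ω (n + 1)).1 + (x (n + 1)).1.1 ≤ (cor M f ω n).1 + (x n).1.1 ∧
    (cor M f ω n).2 ≤ (cor M f ω (n + 1)).2 ∧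
    (cor M f ω (n + 1)).2 + (x (n + 1)).1.1 ≤ (cor M f ω n).2 + (x n).1.1 := by
  obtain ⟨c1, c2, c3, c4⟩ := cor_mem hx0 hst ω n
  obtain ⟨_, _, hM, _, _, hs, hf⟩ := hst n
  obtain ⟨g, a1, a2, a3, a4⟩ := (hf _ c1 c2 c3 c4).1 (ω n % M n) (Nat.mod_lt _ hM)
  simp only [cor]
  exact ⟨g, by linarith, by linarith, by linarith, by linarith⟩

include hx0 hst in
theorem cor_mono (ω : ℕ → ℕ) : Monotone (fun n => (cor M f ω n).1) ∧
    Monotone (fun n => (cor M f ω n).2) ∧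
    Antitone (fun n => (cor M f ω n).1 + (x n).1.1) ∧
    Antitone (fun n => (cor M f ω n).2 + (x n).1.1) :=
  ⟨monotone_nat_of_le_succ fun n => (cor_step hx0 hst ω n).2.1,
    monotone_nat_of_le_succ fun n => (cor_step hx0 hst ω n).2.2.2.1,
    antitone_nat_of_succ_le fun n => (cor_step hx0 hst ω n).2.2.1,
    antitone_nat_of_succ_le fun n => (cor_step hx0 hst ω n).2.2.2.2⟩

include hx0 hst in
theorem Pl_mem (ω : ℕ → ℕ) (n : ℕ) :
    (cor M f ω n).1 ≤ (Pl M f ω).1 ∧ (Pl M f ω).1 ≤ (cor M f ω n).1 + (x n).1.1 ∧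
    (cor M f ω n).2 ≤ (Pl M f ω).2 ∧ (Pl M f ω).2 ≤ (cor M f ω n).2 + (x n).1.1 := by
  obtain ⟨h1, h2, h3, h4⟩ := cor_mono hx0 hst ω
  have u1 : ∀ k, (cor M f ω k).1 ≤ (cor M f ω n).1 + (x n).1.1 := by
    intro k
    have a := h1 (le_max_left k n)
    have b := h3 (le_max_right k n)
    simp only at a b
    have c := (x (max k n)).2.1
    linarith
  have u2 : ∀ k, (cor M f ω k).2 ≤ (cor M f ω n).2 + (x n).1.1 := by
    intro k
    have a := h2 (le_max_left k n)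
    have b := h4 (le_max_right k n)
    simp only at a b
    have c := (x (max k n)).2.1
    linarith
  have b1 : BddAbove (Set.range fun k => (cor M f ω k).1) := ⟨_, by rintro _ ⟨k, rfl⟩; exact u1 k⟩
  have b2 : BddAbove (Set.range fun k => (cor M f ω k).2) := ⟨_, by rintro _ ⟨k, rfl⟩; exact u2 k⟩
  exact ⟨le_ciSup b1 n, ciSup_le u1, le_ciSup b2 n, ciSup_le u2⟩

include hx0 hst in
theorem Pl_dist (ω : ℕ → ℕ) (n : ℕ) : dist (Pl M f ω) (cor M f ω n) ≤ (x n).1.1 := by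
  obtain ⟨h1, h2, h3, h4⟩ := Pl_mem hx0 hst ω n
  rw [Prod.dist_eq, max_le_iff, Real.dist_eq, Real.dist_eq, abs_le, abs_le]
  have := (x n).2.1
  exact ⟨⟨by linarith, by linarith⟩, ⟨by linarith, by linarith⟩⟩

include hst in
theorem side_anti : Antitone (fun n => (x n).1.1) := by
  apply antitone_nat_of_succ_le
  intro n
  have h := (hst n).2.2.2.2.2.1
  have := (x n).2.1
  linarith

include hx0 hst in
theorem side_lim : Tendsto (fun n => (x n).1.1) atTop (𝓝 0) := by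
  have hb : ∀ n, (x n).1.1 ≤ (1 / 2) ^ n := by
    intro n
    induction n with
    | zero => rw [hx0]; norm_num
    | succ n ih =>
      have h := (hst n).2.2.2.2.2.1
      rw [pow_succ]
      linarith
  exact squeeze_zero (fun n => (x n).2.1.le) hb
    (tendsto_pow_atTop_nhds_zero_of_lt_one (by norm_num) (by norm_num))

include hx0 hst in
theorem mass_eq (n : ℕ) : 1 / ∏ i ∈ Finset.range n, (M i : ℝ) = 12 * (x n).1.2 := by
  induction n with
  | zero => rw [hx0]; norm_num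
  | succ n ih =>
    rw [Finset.prod_range_succ, (hst n).2.2.2.2.1]
    rw [one_div, mul_inv, ← one_div, ih]
    ring

include hx0 hst in
theorem Pl_sep {ω ω' : ℕ → ℕ} (h1 : ∀ n, ω n < M n) (h2 : ∀ n, ω' n < M n) {q : ℕ}
    (h3 : ∀ i < q, ω i = ω' i) (h4 : ω q ≠ ω' q) :
    2 * (x (q + 1)).1.1 < dist (Pl M f ω) (Pl M f ω') := by
  obtain ⟨c1, c2, c3, c4⟩ := cor_mem hx0 hst ω q
  obtain ⟨_, hN16, hM, hs', _, hs, hf⟩ := hst q
  have hd := (hf _ c1 c2 c3 c4).2.1 (ω q % M q) (Nat.mod_lt _ hM) (ω' q % M q) (Nat.mod_lt _ hM)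
    (by rw [Nat.mod_eq_of_lt (h1 q), Nat.mod_eq_of_lt (h2 q)]; exact h4)
  have e1 : cor M f ω (q + 1) = f q (cor M f ω q) (ω q % M q) := rfl
  have e2 : cor M f ω' (q + 1) = f q (cor M f ω q) (ω' q % M q) := by
    rw [cor_prefix ω ω' q h3]; rfl
  rw [← e1, ← e2] at hd
  have d1 := Pl_dist hx0 hst ω (q + 1)
  have d2 := Pl_dist hx0 hst ω' (q + 1)
  have t1 := dist_triangle4 (cor M f ω (q + 1)) (Pl M f ω) (Pl M f ω') (cor M f ω' (q + 1))
  rw [dist_comm (cor M f ω (q + 1)) (Pl M f ω)] at t1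
  have hNr : (16 : ℝ) ≤ N q := by exact_mod_cast hN16
  have hk : 4 * (x (q + 1)).1.1 < 1 / (N q : ℝ) := by
    rw [hs', mul_one_div, div_lt_div_iff₀ (by positivity) (by positivity)]
    nlinarith
  linarith

include hx0 hst in
theorem ball_small {r : ℝ} (hr : 0 < r) (z : ℝ × ℝ) :
    (PP (fun n => M n - 1)).real (Pl M f ⁻¹' (Metric.closedBall z r)) ≤ 7200 * r ^ ((2 : ℝ) / 3) := by
  classical
  have hMp : ∀ n, M n - 1 + 1 = M n := fun n => by have := (hst n).2.2.1; omega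
  rcases le_or_gt ((x 0).1.1) r with hbig | hsm
  · have h1 : (PP (fun n => M n - 1)).real (Pl M f ⁻¹' (Metric.closedBall z r)) ≤ 1 :=
      measureReal_le_one
    have h2 : (1 / 12 : ℝ) ≤ r ^ ((2 : ℝ) / 3) := by
      rw [hx0] at hbig
      simp only at hbig
      calc (1 / 12 : ℝ) = (1 / 12 : ℝ) ^ (1 : ℝ) := (Real.rpow_one _).symm
        _ ≤ (1 / 12 : ℝ) ^ ((2 : ℝ) / 3) :=
          Real.rpow_le_rpow_of_exponent_ge (by norm_num) (by norm_num) (by norm_num)
        _ ≤ r ^ ((2 : ℝ) / 3) := Real.rpow_le_rpow (by norm_num) hbig (by norm_num)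
    linarith
  · have hex : ∃ q, (x (q + 1)).1.1 ≤ r := by
      have h1 := ((side_lim hx0 hst).comp (tendsto_add_atTop_nat 1)).eventually (gt_mem_nhds hr)
      obtain ⟨q, hq⟩ := h1.exists
      exact ⟨q, le_of_lt hq⟩
    obtain ⟨q, hq⟩ : ∃ q, q = Nat.find hex := ⟨_, rfl⟩
    have hq1 : (x (q + 1)).1.1 ≤ r := by rw [hq]; exact Nat.find_spec hex
    have hq2 : r < (x q).1.1 := by
      rcases Nat.eq_zero_or_pos q with h0 | h0
      · rw [h0]; exact hsm
      · have := Nat.find_min hex (m := q - 1) (by omega)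
        push Not at this
        rwa [Nat.sub_add_cancel h0] at this
    by_cases hne : ∃ ω₀ : ℕ → ℕ, (∀ n, ω₀ n < M n) ∧ Pl M f ω₀ ∈ Metric.closedBall z r
    · obtain ⟨ω₀, h0, h0'⟩ := hne
      obtain ⟨T, hT⟩ : ∃ T : Finset ℕ, T = (Finset.range (M q)).filter
        (fun k => dist (f q (cor M f ω₀ q) k) z ≤ 2 * r) := ⟨_, rfl⟩
      obtain ⟨t, ht⟩ : ∃ t : ℕ → Set ℕ, t = fun i => if i < q then {ω₀ i} else (T : Set ℕ) := ⟨_, rfl⟩
      have h1 : ∀ᵐ ω ∂(PP (fun n => M n - 1)), ω ∈ Pl M f ⁻¹' (Metric.closedBall z r) →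
          ω ∈ Set.pi ((Finset.range (q + 1) : Finset ℕ) : Set ℕ) t := by
        filter_upwards [ae_lt (K := fun n => M n - 1)] with ω hω hmem
        have hω' : ∀ n, ω n < M n := fun n => by have := hω n; rw [hMp n] at this; exact this
        have hpre : ∀ i < q, ω i = ω₀ i := by
          by_contra hcon
          push Not at hcon
          obtain ⟨m, hm⟩ : ∃ m, m = Nat.find hcon := ⟨_, rfl⟩
          have h3 := Nat.find_spec hcon
          rw [← hm] at h3
          have h4 : ∀ i < m, ω i = ω₀ i := by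
            intro i hi
            rw [hm] at hi
            have := Nat.find_min hcon hi
            push Not at this
            rw [← hm] at hi
            exact this (by omega)
          have h5 := Pl_sep hx0 hst hω' h0 h4 h3.2
          have h6 := side_anti hst (show m + 1 ≤ q by omega)
          simp only at h6
          have h7 : dist (Pl M f ω) (Pl M f ω₀) ≤ 2 * r := by
            have a : dist (Pl M f ω) z ≤ r := hmem
            have b : dist (Pl M f ω₀) z ≤ r := h0'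
            have := dist_triangle_right (Pl M f ω) (Pl M f ω₀) z
            linarith
          linarith
        intro i hi
        have hi' : i < q + 1 := by simpa using hi
        rw [ht]
        simp only
        split_ifs with hiq
        · exact hpre i hiq
        · have hiq' : i = q := by omega
          subst hiq'
          show ω i ∈ (T : Set ℕ)
          rw [Finset.mem_coe, hT, Finset.mem_filter, Finset.mem_range]
          refine ⟨hω' i, ?_⟩
          have e : cor M f ω (i + 1) = f i (cor M f ω₀ i) (ω i) := by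
            rw [← cor_prefix ω ω₀ i hpre]
            show f i (cor M f ω i) (ω i % M i) = _
            rw [Nat.mod_eq_of_lt (hω' i)]
          rw [← e]
          have d1 := Pl_dist hx0 hst ω (i + 1)
          have a : dist (Pl M f ω) z ≤ r := hmem
          have := dist_triangle_left (cor M f ω (i + 1)) z (Pl M f ω)
          linarith
      have h2 : (PP (fun n => M n - 1)).real (Pl M f ⁻¹' (Metric.closedBall z r)) ≤
          (PP (fun n => M n - 1)).real (Set.pi ((Finset.range (q + 1) : Finset ℕ) : Set ℕ) t) := by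
        rw [Measure.real, Measure.real]
        apply ENNReal.toReal_mono (measure_ne_top _ _)
        exact measure_mono_ae h1
      refine h2.trans ?_
      rw [PP_box, Finset.prod_range_succ]
      have e1 : (nu (fun n => M n - 1) q).real (t q) = (T.card : ℝ) / M q := by
        have e : t q = (T : Set ℕ) := by rw [ht]; simp
        rw [e, nu_real]
        have hMq : ((M q - 1 : ℕ) : ℝ) + 1 = M q := by exact_mod_cast hMp q
        rw [hMq, hMp q]
        congr 3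
        ext k
        rw [Finset.mem_filter, Finset.mem_range]
        constructor
        · rintro ⟨_, h⟩; exact h
        · intro h
          refine ⟨?_, h⟩
          rw [hT, Finset.mem_filter, Finset.mem_range] at h
          exact h.1
      have e2 : ∏ i ∈ Finset.range q, (nu (fun n => M n - 1) i).real (t i) ≤
          1 / ∏ i ∈ Finset.range q, (M i : ℝ) := by
        rw [one_div, ← Finset.prod_inv_distrib]
        refine Finset.prod_le_prod (fun _ _ => measureReal_nonneg) fun i hi => ?_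
        have hi' := Finset.mem_range.1 hi
        have e : t i = {ω₀ i} := by rw [ht]; simp [hi']
        rw [e, nu_real, ← one_div]
        have hMq : ((M i - 1 : ℕ) : ℝ) + 1 = M i := by exact_mod_cast hMp i
        rw [hMq]
        apply div_le_div_of_nonneg_right _ (by positivity)
        have h : ((Finset.range (M i - 1 + 1)).filter (· ∈ ({ω₀ i} : Set ℕ))) ⊆ {ω₀ i} := by
          intro u hu
          rw [Finset.mem_filter] at hu
          rw [Finset.mem_singleton]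
          exact hu.2
        have := Finset.card_le_card h
        rw [Finset.card_singleton] at this
        exact_mod_cast this
      rw [mass_eq hx0 hst] at e2
      obtain ⟨c1, c2, c3, c4⟩ := cor_mem hx0 hst ω₀ q
      have h5 := ((hst q).2.2.2.2.2.2 _ c1 c2 c3 c4).2.2 z r hq1 hq2.le
      have hT' : (((Finset.range (M q)).filter
        (fun k => dist (f q (cor M f ω₀ q) k) z ≤ 2 * r)).card : ℝ) = (T.card : ℝ) := by
        rw [hT]
      rw [hT'] at h5
      rw [e1]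
      have hM0 : (0 : ℝ) < M q := by exact_mod_cast (hst q).2.2.1
      calc (∏ i ∈ Finset.range q, (nu (fun n => M n - 1) i).real (t i)) * ((T.card : ℝ) / M q)
          ≤ (12 * (x q).1.2) * ((T.card : ℝ) / M q) := by gcongr
        _ = 12 * ((x q).1.2 * (T.card : ℝ) / M q) := by ring
        _ ≤ 12 * (600 * r ^ ((2 : ℝ) / 3)) := by gcongr
        _ = 7200 * r ^ ((2 : ℝ) / 3) := by ring
    · push Not at hne
      have h1 : (PP (fun n => M n - 1)) (Pl M f ⁻¹' (Metric.closedBall z r)) = 0 := by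
        have h2 : ∀ᵐ ω ∂(PP (fun n => M n - 1)), ω ∉ Pl M f ⁻¹' (Metric.closedBall z r) := by
          filter_upwards [ae_lt (K := fun n => M n - 1)] with ω hω hmem
          exact hne ω (fun n => by have := hω n; rw [hMp n] at this; exact this) hmem
        exact measure_eq_zero_iff_ae_notMem.2 h2
      rw [Measure.real, h1, ENNReal.toReal_zero]
      positivity

include hx0 hst in
theorem dimH_Pl {E : Set (ℝ × ℝ)} (hE : ∀ ω, Pl M f ω ∈ E) {d : ℝ≥0} (hd : (d : ℝ) = 2 / 3) :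
    (d : ℝ≥0∞) ≤ dimH E := by
  have hd' : (0 : ℝ) < d := by rw [hd]; norm_num
  obtain ⟨μ, hμ⟩ : ∃ μ, μ = PP (fun n => M n - 1) := ⟨_, rfl⟩
  have hprob : IsProbabilityMeasure μ := by rw [hμ]; infer_instance
  have hle : (ENNReal.ofReal 7200)⁻¹ • μ.map (Pl M f) ≤ μH[(d : ℝ)] := by
    refine Measure.le_hausdorffMeasure (d : ℝ) _ 1 one_pos ?_
    intro s hs1
    rcases s.eq_empty_or_nonempty with rfl | ⟨x0, hx0'⟩
    · simp
    obtain ⟨r, hr⟩ : ∃ r, r = (Metric.ediam s).toReal := ⟨_, rfl⟩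
    have hfin : Metric.ediam s ≠ ∞ := ne_top_of_le_ne_top ENNReal.one_ne_top hs1
    have hrr : Metric.ediam s = ENNReal.ofReal r := by rw [hr, ENNReal.ofReal_toReal hfin]
    have hr0' : 0 ≤ r := by rw [hr]; exact ENNReal.toReal_nonneg
    have hbound : ∀ᶠ t : ℝ in 𝓝[>] 0, μ.map (Pl M f) s ≤ ENNReal.ofReal (7200 * (r + t) ^ (d : ℝ)) := by
      filter_upwards [self_mem_nhdsWithin] with t ht
      have ht0 : 0 < t := ht
      have hsub : s ⊆ Metric.closedBall x0 (r + t) := by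
        intro y hy
        have h1 : edist y x0 ≤ Metric.ediam s := Metric.edist_le_ediam_of_mem hy hx0'
        rw [hrr, edist_dist, ENNReal.ofReal_le_ofReal_iff hr0'] at h1
        rw [Metric.mem_closedBall]
        linarith
      refine (measure_mono hsub).trans ?_
      rw [Measure.map_apply measurable_Pl Metric.isClosed_closedBall.measurableSet]
      have h2 := ball_small hx0 hst (show 0 < r + t by linarith) x0
      rw [← hμ, Measure.real, ← hd] at h2
      rw [← ENNReal.ofReal_toReal (measure_ne_top μ (Pl M f ⁻¹' Metric.closedBall x0 (r + t)))]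
      exact ENNReal.ofReal_le_ofReal h2
    have hlim' : Tendsto (fun t : ℝ => ENNReal.ofReal (7200 * (r + t) ^ (d : ℝ))) (𝓝[>] 0)
        (𝓝 (ENNReal.ofReal (7200 * (r + 0) ^ (d : ℝ)))) := by
      apply ENNReal.tendsto_ofReal
      have hc : ContinuousAt (fun t : ℝ => 7200 * (r + t) ^ (d : ℝ)) 0 :=
        (ContinuousAt.rpow_const (by fun_prop) (Or.inr hd'.le)).const_mul _
      exact hc.tendsto.mono_left nhdsWithin_le_nhds
    have h3 := ge_of_tendsto hlim' hbound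
    rw [add_zero, ENNReal.ofReal_mul (by norm_num), ← ENNReal.ofReal_rpow_of_nonneg hr0' hd'.le] at h3
    rw [Measure.smul_apply, smul_eq_mul, hrr]
    have hC0 : ENNReal.ofReal 7200 ≠ 0 := by
      rw [Ne, ENNReal.ofReal_eq_zero]; norm_num
    calc (ENNReal.ofReal 7200)⁻¹ * (μ.map (Pl M f)) s
        ≤ (ENNReal.ofReal 7200)⁻¹ * (ENNReal.ofReal 7200 * ENNReal.ofReal r ^ (d : ℝ)) := by gcongr
      _ = ENNReal.ofReal r ^ (d : ℝ) := by
        rw [← mul_assoc, ENNReal.inv_mul_cancel hC0 ENNReal.ofReal_ne_top, one_mul]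
  have hone : 1 ≤ μ.map (Pl M f) E := by
    have h1 := Measure.le_map_apply (μ := μ) (measurable_Pl (M := M) (f := f)).aemeasurable E
    refine le_trans ?_ h1
    have h2 : Pl M f ⁻¹' E = univ := by
      ext ω; simp [hE ω]
    rw [h2, measure_univ]
  apply le_dimH_of_hausdorffMeasure_ne_zero
  intro h0
  have h1 := hle E
  rw [h0, Measure.smul_apply, smul_eq_mul] at h1
  have h2 : (ENNReal.ofReal 7200)⁻¹ * (μ.map (Pl M f)) E ≠ 0 := by
    apply mul_ne_zero
    · exact ENNReal.inv_ne_zero.2 ENNReal.ofReal_ne_top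
    · intro h; rw [h] at hone; simp at hone
  exact h2 (le_antisymm h1 bot_le)

end tree

theorem cantor : ∃ E : Set (ℝ × ℝ), ((2 / 3 : ℝ≥0) : ℝ≥0∞) ≤ dimH E ∧ ∀ y ∈ E, ∀ n0 : ℕ,
    ∃ N ≥ n0, ∃ g, 16 ≤ N ∧ Good N g ∧ g.1 ≤ y.1 ∧ y.1 ≤ g.1 + 1 / (4 * (N : ℝ) ^ 2) ∧
      g.2 ≤ y.2 ∧ y.2 ≤ g.2 + 1 / (4 * (N : ℝ) ^ 2) := by
  obtain ⟨x, N, M, f, hx0, hst⟩ := seqs
  refine ⟨Set.range (Pl M f), ?_, ?_⟩
  · exact dimH_Pl hx0 hst (E := Set.range (Pl M f)) (fun ω => Set.mem_range_self ω) (by norm_num)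
  · rintro _ ⟨ω, rfl⟩ n0
    refine ⟨N n0, (hst n0).1, cor M f ω (n0 + 1), (hst n0).2.1, (cor_step hx0 hst ω n0).1, ?_⟩
    rw [← (hst n0).2.2.2.1]
    exact Pl_mem hx0 hst ω (n0 + 1)

end Pool.Agent.Q3.ULit
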